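import Pool.Agent.Lib.MP_7f581e_U.G.Spec1

/-!
MP_7f581e, U/G, module CnG: transport along an isomorphism.
-/

set_option autoImplicit false

namespace MP7U

open Polynomial

theorem gCnG : CnGStmt := by
  rintro k _ Γ Γ' _ _ f M P Q ⟨L, iF, iA, act, y, h1, h2, h3, h4, h5, h6, h7⟩
  exact ⟨L, iF, iA, act.comp f.toMonoidHom, y, h1, h2, h3.comp f.bijective, h4, h5,
    fun σ => h6 (f σ), h7⟩

end MP7U
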