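import Pool.Agent.Lib.MP_7f581e_U.G.Spec1

/-!
# C41 (MP_7f581e_nt), Block G: change of the parameter, `X = P(y) / Q(y)` (helper77)
-/

set_option autoImplicit false

namespace MP7U

open Polynomial

namespace ExGM

/-- a Moebius transformation with a transcendental fixed point is trivial -/
theorem scalar_of_fixed {k L : Type} [Field k] [Field L] [Algebra k L] {y : L}
    (hy : Transcendental k y) {M : Matrix (Fin 2) (Fin 2) k} (h : Mob (algebraMap k L) M y y) :
    Sc M := by
  have h1 : aeval y (C (M 1 0) * X ^ 2 + C (M 1 1 - M 0 0) * X - C (M 0 1)) = 0 := by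
    rw [map_sub, map_add, map_mul, map_mul, map_pow, aeval_C, aeval_C, aeval_C, aeval_X, map_sub]
    linear_combination h.2
  have h2 : C (M 1 0) * X ^ 2 + C (M 1 1 - M 0 0) * X - C (M 0 1) = 0 := by
    by_contra h3
    exact hy ⟨_, h3, h1⟩
  have e2 : M 1 0 = 0 := by
    have := congrArg (fun p : k[X] => p.coeff 2) h2
    simpa [coeff_X, coeff_C] using this
  have e1 : M 1 1 - M 0 0 = 0 := by
    have := congrArg (fun p : k[X] => p.coeff 1) h2
    simpa [coeff_X, coeff_C, coeff_X_pow, e2] using this
  have e0 : M 0 1 = 0 := by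
    have := congrArg (fun p : k[X] => p.coeff 0) h2
    simpa [coeff_X, coeff_C, coeff_X_pow, e2] using this
  refine ⟨M 0 0, ?_⟩
  ext i j
  fin_cases i <;> fin_cases j
  · simp
  · simpa using e0
  · simpa using e2
  · simpa using sub_eq_zero.1 e1

theorem fixed_of_scalar {k L : Type} [Field k] [Field L] {κ : k →+* L} {u v : L}
    {M : Matrix (Fin 2) (Fin 2) k} (hM : Sc M) (h : Mob κ M u v) : v = u := by
  obtain ⟨c, rfl⟩ := hM
  obtain ⟨h1, h2⟩ := h
  simp only [Matrix.smul_apply, Matrix.one_apply, smul_eq_mul, Fin.isValue, one_ne_zero,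
    zero_ne_one, if_true, if_false, mul_one, mul_zero, map_zero, zero_mul, zero_add,
    add_zero] at h1 h2
  exact mul_left_cancel₀ h1 h2

end ExGM

open ExGM in
theorem gExG : ExGStmt := by
  intro k _ Γ _ _ N M P Q hAH hN hHH
  obtain ⟨L, _, _, act, y, hfd, hgal, hbij, hQ, hP, hact, hreg⟩ := hHH
  let _ : Algebra k L := (cstL k L).toAlgebra
  have htow : IsScalarTower k (RatFunc k) L := IsScalarTower.of_algebraMap_eq (fun _ => rfl)
  have hX : Transcendental k (algebraMap (RatFunc k) L RatFunc.X) :=
    (transcendental_algebraMap_iff (algebraMap (RatFunc k) L).injective).mpr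
      RatFunc.transcendental_X
  have hP' : aeval y P = algebraMap (RatFunc k) L RatFunc.X * aeval y Q := hP
  have hQ' : aeval y Q ≠ 0 := hQ
  have hact' : ∀ σ, Mob (algebraMap k L) (M σ) y (act σ y) := hact
  have hyT : Transcendental k y := by
    intro h
    refine hX ?_
    have h1 : ∀ p : k[X], IsAlgebraic k (aeval y p) := by
      intro p
      have h2 : aeval y p ∈ integralClosure k L := by
        have h3 : Algebra.adjoin k {y} ≤ integralClosure k L := by
          rw [Algebra.adjoin_le_iff]
          rintro _ rfl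
          exact isAlgebraic_iff_isIntegral.1 h
        exact h3 (aeval_mem_adjoin_singleton k y)
      exact isAlgebraic_iff_isIntegral.2 h2
    have h4 : algebraMap (RatFunc k) L RatFunc.X = aeval y P * (aeval y Q)⁻¹ := by
      rw [hP', mul_assoc, mul_inv_cancel₀ hQ', mul_one]
    rw [h4]
    exact (h1 P).mul (h1 Q).inv
  have hinj : Function.Injective (aeval y : k[X] →ₐ[k] L).toRingHom :=
    transcendental_iff_injective.mp hyT
  obtain ⟨j, hj⟩ : ∃ j : RatFunc k →+* L, ∀ p : k[X], j (algebraMap k[X] (RatFunc k) p) =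
      aeval y p :=
    ⟨IsFractionRing.lift (A := k[X]) (K := RatFunc k) hinj,
      fun p => IsFractionRing.lift_algebraMap hinj p⟩
  have hjC : ∀ c : k, j (RatFunc.C c) = algebraMap (RatFunc k) L (RatFunc.C c) := by
    intro c
    rw [← RatFunc.algebraMap_C, hj, aeval_C, RatFunc.algebraMap_C]
    rfl
  have hjX : j RatFunc.X = y := by
    rw [← RatFunc.algebraMap_X, hj, aeval_X]
  -- the old field is contained in the new one
  have hold : ∀ r : RatFunc k, algebraMap (RatFunc k) L r ∈ j.fieldRange := by
    let w : RatFunc k := algebraMap k[X] (RatFunc k) P / algebraMap k[X] (RatFunc k) Q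
    have hw : j w = algebraMap (RatFunc k) L RatFunc.X := by
      show j (algebraMap k[X] (RatFunc k) P / algebraMap k[X] (RatFunc k) Q) = _
      rw [map_div₀, hj, hj, hP', mul_div_assoc, div_self hQ', mul_one]
    have hhom : (algebraMap (RatFunc k) L).comp (algebraMap k[X] (RatFunc k)) =
        j.comp (eval₂RingHom (RatFunc.C : k →+* RatFunc k) w) := by
      apply Polynomial.ringHom_ext
      · intro c
        rw [RingHom.comp_apply, RingHom.comp_apply, RatFunc.algebraMap_C, coe_eval₂RingHom,
          eval₂_C, hjC]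
      · rw [RingHom.comp_apply, RingHom.comp_apply, RatFunc.algebraMap_X, coe_eval₂RingHom,
          eval₂_X, hw]
    have hpol : ∀ p : k[X], algebraMap (RatFunc k) L (algebraMap k[X] (RatFunc k) p) ∈
        j.fieldRange := by
      intro p
      exact ⟨_, (DFunLike.congr_fun hhom p).symm⟩
    intro r
    obtain ⟨p, q, hq, rfl⟩ := IsFractionRing.div_surjective (A := k[X]) r
    rw [map_div₀]
    exact div_mem (hpol p) (hpol q)
  have hmain : ∀ z : L, (∀ σ ∈ N, act σ z = z) → z ∈ j.fieldRange := by
    intro z hz
    let F : IntermediateField (RatFunc k) L :=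
      { j.fieldRange with
        algebraMap_mem' := hold }
    have hF : IntermediateField.adjoin (RatFunc k) {y} ≤ F := by
      rw [IntermediateField.adjoin_simple_le_iff]
      exact ⟨RatFunc.X, hjX⟩
    have hzE : z ∈ IntermediateField.adjoin (RatFunc k) {y} := by
      rw [← IsGalois.fixedField_fixingSubgroup (IntermediateField.adjoin (RatFunc k) {y})]
      rintro ⟨f, hf⟩
      obtain ⟨σ, rfl⟩ := hbij.2 f
      have h1 : act σ y = y :=
        (IntermediateField.mem_fixingSubgroup_iff _ _).1 hf y
          (IntermediateField.mem_adjoin_simple_self (RatFunc k) y)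
      have h2 : Mob (algebraMap k L) (M σ) y y := by
        have h3 := hact' σ
        rw [h1] at h3
        exact h3
      exact hz σ ((hN σ).1 (scalar_of_fixed hyT h2))
    exact hF hzE
  have hconv : ∀ (x : RatFunc k) (σ : Γ), σ ∈ N → act σ (j x) = j x := by
    intro x σ hσ
    have h3 : ((act σ : L ≃ₐ[RatFunc k] L) : L →+* L).comp j = j := by
      apply IsLocalization.ringHom_ext (nonZeroDivisors k[X])
      apply Polynomial.ringHom_ext
      · intro c
        rw [RingHom.comp_apply, RingHom.comp_apply, RingHom.comp_apply, RatFunc.algebraMap_C, hjC]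
        exact (act σ).commutes _
      · rw [RingHom.comp_apply, RingHom.comp_apply, RingHom.comp_apply, RatFunc.algebraMap_X, hjX]
        exact fixed_of_scalar ((hN σ).2 hσ) (hact' σ)
    exact DFunLike.congr_fun h3 x
  let a : Γ →* (L ≃+* L) :=
    { toFun := fun σ => (act σ).toRingEquiv
      map_one' := by
        rw [map_one]
        rfl
      map_mul' := fun σ τ => by
        rw [map_mul]
        rfl }
  have ha : ∀ σ z, a σ z = act σ z := fun _ _ => rfl
  refine ⟨L, inferInstance, j.toAlgebra, a, ?_, ?_, ?_⟩
  · intro σ τ h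
    refine hbij.1 (AlgEquiv.ext fun z => ?_)
    rw [← ha, ← ha, h]
  · intro σ c
    change a σ (j (RatFunc.C c)) = j (RatFunc.C c)
    rw [hjC, ha]
    exact (act σ).commutes _
  · intro z
    constructor
    · intro h
      exact hmain z h
    · rintro ⟨x, rfl⟩ σ hσ
      exact hconv x σ hσ

end MP7U
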