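import Pool.Agent.Lib.MP_7f581e_U.G.Spec1

/-!
MP_7f581e, U/G, module MbG: Moebius transformations act on `k(Y)`.
-/

set_option autoImplicit false

namespace MP7U

open Polynomial IntermediateField

namespace MbGaux

variable {k : Type} [Field k]

/-- A polynomial relation for the variable of degree at most two. -/
theorem rel2 (a b c : k) (h : RatFunc.C a * (RatFunc.X : RatFunc k) ^ 2 +
    RatFunc.C b * RatFunc.X + RatFunc.C c = 0) : a = 0 ∧ b = 0 ∧ c = 0 := by
  have h1 : algebraMap k[X] (RatFunc k) (C a * X ^ 2 + C b * X + C c) = 0 := by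
    rw [← h]
    simp [RatFunc.algebraMap_C, RatFunc.algebraMap_X]
  have h2 : (C a * X ^ 2 + C b * X + C c : k[X]) = 0 := by
    apply RatFunc.algebraMap_injective k
    rw [h1, map_zero]
  have c0 := congrArg (fun p => p.coeff 0) h2
  have c1 := congrArg (fun p => p.coeff 1) h2
  have c2 := congrArg (fun p => p.coeff 2) h2
  simp [coeff_X, coeff_C] at c0 c1 c2
  exact ⟨c2, c1, c0⟩

theorem ext_X (u v : RatFunc k →ₐ[k] RatFunc k) (h : u RatFunc.X = v RatFunc.X) : u = v := by
  have h1 : ∀ p : k[X], u (algebraMap k[X] (RatFunc k) p) = v (algebraMap k[X] (RatFunc k) p) := by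
    intro p
    have h2 : algebraMap k[X] (RatFunc k) p = aeval (RatFunc.X : RatFunc k) p := by
      rw [RatFunc.aeval_X_left_eq_algebraMap]
    rw [h2, ← aeval_algHom_apply, ← aeval_algHom_apply, h]
  apply AlgHom.ext
  intro z
  rw [← RatFunc.num_div_denom z, map_div₀, map_div₀, h1, h1]

theorem lin_ne (N : Matrix (Fin 2) (Fin 2) k) (hN : N.det ≠ 0) (z : RatFunc k)
    (hz : Transcendental k z) : RatFunc.C (N 1 0) * z + RatFunc.C (N 1 1) ≠ 0 := by
  intro h
  have h1 : aeval z (C (N 1 0) * X + C (N 1 1) : k[X]) = 0 := by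
    rw [← h]
    simp [RatFunc.algebraMap_eq_C]
  have h2 := (transcendental_iff.mp hz) _ h1
  have c0 := congrArg (fun p => p.coeff 0) h2
  have c1 := congrArg (fun p => p.coeff 1) h2
  simp [coeff_X, coeff_C] at c0 c1
  apply hN
  rw [Matrix.det_fin_two, c0, c1]
  ring

/-- The value of the Moebius transformation at the variable. -/
noncomputable def mv (N : Matrix (Fin 2) (Fin 2) k) : RatFunc k :=
  (RatFunc.C (N 0 0) * RatFunc.X + RatFunc.C (N 0 1)) /
    (RatFunc.C (N 1 0) * RatFunc.X + RatFunc.C (N 1 1))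

theorem trX : Transcendental k (RatFunc.X : RatFunc k) := RatFunc.transcendental_X

theorem mv_tr (N : Matrix (Fin 2) (Fin 2) k) (hN : N.det ≠ 0) : Transcendental k (mv N) := by
  apply RatFunc.transcendental_of_ne_C
  rintro ⟨c, hc⟩
  have hne := lin_ne N hN RatFunc.X trX
  rw [mv, div_eq_iff hne] at hc
  have h1 := rel2 (0 : k) (N 0 0 - c * N 1 0) (N 0 1 - c * N 1 1) (by
    rw [map_zero, map_sub, map_sub, map_mul, map_mul]
    linear_combination hc)
  obtain ⟨_, h2, h3⟩ := h1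
  apply hN
  rw [Matrix.det_fin_two]
  linear_combination N 1 1 * h2 - N 1 0 * h3

/-- The endomorphism. -/
noncomputable def al (N : Matrix (Fin 2) (Fin 2) k) (hN : N.det ≠ 0) :
    RatFunc k →ₐ[k] RatFunc k :=
  (k⟮mv N⟯).val.comp (RatFunc.algEquivOfTranscendental (mv N) (mv_tr N hN)).toAlgHom

theorem al_X (N : Matrix (Fin 2) (Fin 2) k) (hN : N.det ≠ 0) : al N hN RatFunc.X = mv N := by
  change (((RatFunc.algEquivOfTranscendental (mv N) (mv_tr N hN)) RatFunc.X : k⟮mv N⟯) :
    RatFunc k) = mv N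
  rw [RatFunc.algEquivOfTranscendental_X]

theorem al_C (N : Matrix (Fin 2) (Fin 2) k) (hN : N.det ≠ 0) (c : k) :
    al N hN (RatFunc.C c) = RatFunc.C c := by
  have h := (al N hN).commutes c
  rwa [RatFunc.algebraMap_eq_C] at h

theorem mv_mul (N N' : Matrix (Fin 2) (Fin 2) k) (hN : N.det ≠ 0) (hN' : N'.det ≠ 0) (c : k)
    (hc : c ≠ 0) (N'' : Matrix (Fin 2) (Fin 2) k) (h : N'' = c • (N' * N)) (hN'' : N''.det ≠ 0) :
    al N hN (mv N') = mv N'' := by
  have e : al N hN (mv N') = (RatFunc.C (N' 0 0) * mv N + RatFunc.C (N' 0 1)) /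
      (RatFunc.C (N' 1 0) * mv N + RatFunc.C (N' 1 1)) := by
    conv_lhs => rw [mv]
    rw [map_div₀, map_add, map_add, map_mul, map_mul, al_C, al_C, al_C, al_C, al_X]
  have n1 := lin_ne N hN RatFunc.X trX
  have n2 := lin_ne N' hN' (mv N) (mv_tr N hN)
  have n3 := lin_ne N'' hN'' RatFunc.X trX
  have h4 : (RatFunc.C (N 1 0) * RatFunc.X + RatFunc.C (N 1 1)) * mv N =
      RatFunc.C (N 0 0) * RatFunc.X + RatFunc.C (N 0 1) := by
    rw [mv, mul_div_cancel₀ _ n1]
  have h5 : (RatFunc.C (N'' 1 0) * RatFunc.X + RatFunc.C (N'' 1 1)) * mv N'' =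
      RatFunc.C (N'' 0 0) * RatFunc.X + RatFunc.C (N'' 0 1) := by
    rw [mv, mul_div_cancel₀ _ n3]
  have en : ∀ i j, N'' i j = c * (N' i 0 * N 0 j + N' i 1 * N 1 j) := by
    intro i j
    rw [h, Matrix.smul_apply, Matrix.mul_apply, Fin.sum_univ_two, smul_eq_mul]
  have hcC : (RatFunc.C c : RatFunc k) ≠ 0 := by
    intro h0
    apply hc
    apply RatFunc.C_injective
    rw [h0, map_zero]
  rw [e, div_eq_iff n2]
  simp only [en, map_mul, map_add] at h5
  apply mul_left_cancel₀ n1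
  apply mul_left_cancel₀ hcC
  linear_combination (RatFunc.C c * RatFunc.C (N' 0 0) -
    RatFunc.C c * RatFunc.C (N' 1 0) * mv N'') * h4 - h5

end MbGaux

open MbGaux in
theorem gMbG : MbGStmt := by
  intro k _ Δ _ M hM hS
  have hmul : ∀ σ τ, al (M (σ * τ)) (hM.det _) =
      (al (M σ) (hM.det σ)).comp (al (M τ) (hM.det τ)) := by
    intro σ τ
    apply ext_X
    obtain ⟨c, hc, h⟩ := hM.mul σ τ
    rw [al_X, AlgHom.comp_apply, al_X]
    exact (mv_mul (M σ) (M τ) (hM.det σ) (hM.det τ) c hc (M (σ * τ)) h (hM.det _)).symm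
  have hone : al (M 1) (hM.det 1) = AlgHom.id k (RatFunc k) := by
    have h1 := hmul 1 1
    rw [mul_one] at h1
    apply ext_X
    rw [AlgHom.id_apply]
    apply (al (M 1) (hM.det 1)).toRingHom.injective
    have h2 := congrArg (fun u => u RatFunc.X) h1
    simp only [AlgHom.comp_apply] at h2
    exact h2.symm
  let α : Δ →* (RatFunc k →ₐ[k] RatFunc k) :=
    { toFun := fun σ => al (M σ) (hM.det σ)
      map_one' := hone
      map_mul' := hmul }
  let act : Δ →* (RatFunc k ≃ₐ[k] RatFunc k) :=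
    (AlgEquiv.algHomUnitsEquiv k (RatFunc k)).toMonoidHom.comp α.toHomUnits
  have hact : ∀ σ z, act σ z = al (M σ) (hM.det σ) z := fun σ z => rfl
  refine ⟨act, ?_, ?_⟩
  · rw [injective_iff_map_eq_one]
    intro σ hσ
    apply hS σ
    have h1 : act σ RatFunc.X = RatFunc.X := by rw [hσ]; rfl
    rw [hact, al_X, mv, div_eq_iff (lin_ne (M σ) (hM.det σ) RatFunc.X trX)] at h1
    obtain ⟨e1, e2, e3⟩ := rel2 (M σ 1 0) (M σ 1 1 - M σ 0 0) (- M σ 0 1) (by
      rw [map_sub, map_neg]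
      linear_combination -h1)
    refine ⟨M σ 0 0, ?_⟩
    have e2' : M σ 1 1 = M σ 0 0 := sub_eq_zero.mp e2
    have e3' : M σ 0 1 = 0 := neg_eq_zero.mp e3
    ext i j
    fin_cases i <;> fin_cases j
    · simp
    · simpa using e3'
    · simpa using e1
    · simpa using e2'
  · intro σ
    have hne := lin_ne (M σ) (hM.det σ) RatFunc.X trX
    refine ⟨?_, ?_⟩
    · rw [RatFunc.algebraMap_eq_C]
      exact hne
    · rw [RatFunc.algebraMap_eq_C, hact, al_X, mv, mul_div_cancel₀ _ hne]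

end MP7U
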