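import Pool.Agent.Lib.MP_7f581e_U.G.Spec1

set_option autoImplicit false

namespace MP7U

open Polynomial

namespace PtGM

theorem ss_mem_Os (k : Type) [Field k] : ss k ∈ Os k := by
  refine ⟨PowerSeries.X, ?_⟩
  rw [HahnSeries.ofPowerSeries_X, ss]

theorem C_ss_mem (k : Type) [Field k] :
    (HahnSeries.C (ss k) : LaurentSeries (LaurentSeries k)) ∈ FF (Os k) :=
  PS_le_FF (C_mem_PS (ss_mem_Os k))

theorem C_mem_FFOs (k : Type) [Field k] (z : LaurentSeries k) :
    (HahnSeries.C z : LaurentSeries (LaurentSeries k)) ∈ FF (Os k) := by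
  have h1 : (HahnSeries.single z.order (1 : k) : LaurentSeries k) *
      HahnSeries.ofPowerSeries ℤ k z.powerSeriesPart = z :=
    LaurentSeries.single_order_mul_powerSeriesPart z
  rw [← h1, map_mul]
  refine mul_mem ?_ (PS_le_FF (C_mem_PS ⟨_, rfl⟩))
  have h2 : (HahnSeries.single z.order (1 : k) : LaurentSeries k) = ss k ^ z.order := by
    rw [ss]
    exact RatFunc.single_zpow _
  rw [h2, map_zpow₀]
  exact zpow_mem (C_ss_mem k) _

theorem xx_mem_Px (k : Type) [Field k] : xx k ∈ Px k :=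
  ⟨X, by simp⟩

theorem two_ne (k : Type) [Field k] [CharZero k] : (2 : LaurentSeries (LaurentSeries k)) ≠ 0 := by
  intro h
  have h1 : (HahnSeries.C (HahnSeries.C (2 : k)) : LaurentSeries (LaurentSeries k)) = 2 := by
    rw [map_ofNat, map_ofNat]
  rw [h, ← map_zero (HahnSeries.C : LaurentSeries k →+* LaurentSeries (LaurentSeries k))] at h1
  have h2 := HahnSeries.C_injective h1
  rw [← map_zero (HahnSeries.C : k →+* LaurentSeries k)] at h2
  exact two_ne_zero (HahnSeries.C_injective h2)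

section

variable {k Ω : Type} [Field k] [Field Ω]

/-- the value of a Moebius transformation -/
noncomputable def mo (κ : k →+* Ω) (N : Matrix (Fin 2) (Fin 2) k) (x : Ω) : Ω :=
  (κ (N 0 0) * x + κ (N 0 1)) / (κ (N 1 0) * x + κ (N 1 1))

theorem den_ne {κ : k →+* Ω} {x : Ω} (hx : ∀ c, κ c ≠ x) {N : Matrix (Fin 2) (Fin 2) k}
    (hN : N.det ≠ 0) : κ (N 1 0) * x + κ (N 1 1) ≠ 0 := by
  intro h
  by_cases h0 : N 1 0 = 0
  · rw [h0, map_zero, zero_mul, zero_add] at h
    have h1 : N 1 1 = 0 := κ.injective (by rw [h, map_zero])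
    apply hN
    rw [Matrix.det_fin_two, h0, h1]
    ring
  · apply hx (-(N 1 1) / N 1 0)
    have h2 : κ (N 1 0) ≠ 0 := by
      intro h3
      exact h0 (κ.injective (by rw [h3, map_zero]))
    rw [map_div₀, map_neg]
    field_simp
    linear_combination (-1 : Ω) * h

theorem mo_smul (κ : k →+* Ω) (c : k) (hc : c ≠ 0) (N : Matrix (Fin 2) (Fin 2) k) (x : Ω) :
    mo κ (c • N) x = mo κ N x := by
  unfold mo
  simp only [Matrix.smul_apply, smul_eq_mul, map_mul]
  have h2 : κ c ≠ 0 := by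
    intro h3
    exact hc (κ.injective (by rw [h3, map_zero]))
  have e1 : κ c * κ (N 0 0) * x + κ c * κ (N 0 1) = κ c * (κ (N 0 0) * x + κ (N 0 1)) := by ring
  have e2 : κ c * κ (N 1 0) * x + κ c * κ (N 1 1) = κ c * (κ (N 1 0) * x + κ (N 1 1)) := by ring
  rw [e1, e2, mul_div_mul_left _ _ h2]

theorem mo_mul (κ : k →+* Ω) {x : Ω} (hx : ∀ c, κ c ≠ x) {N N' : Matrix (Fin 2) (Fin 2) k}
    (hN' : N'.det ≠ 0) : mo κ (N * N') x = mo κ N (mo κ N' x) := by
  have h1 := den_ne hx hN'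
  unfold mo
  simp only [Matrix.mul_apply, Fin.sum_univ_two, map_add, map_mul]
  set D := κ (N' 1 0) * x + κ (N' 1 1) with hD
  have e1 : κ (N 0 0) * ((κ (N' 0 0) * x + κ (N' 0 1)) / D) + κ (N 0 1) =
      ((κ (N 0 0) * κ (N' 0 0) + κ (N 0 1) * κ (N' 1 0)) * x +
        (κ (N 0 0) * κ (N' 0 1) + κ (N 0 1) * κ (N' 1 1))) / D := by
    field_simp
    rw [hD]
    ring
  have e2 : κ (N 1 0) * ((κ (N' 0 0) * x + κ (N' 0 1)) / D) + κ (N 1 1) =
      ((κ (N 1 0) * κ (N' 0 0) + κ (N 1 1) * κ (N' 1 0)) * x +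
        (κ (N 1 0) * κ (N' 0 1) + κ (N 1 1) * κ (N' 1 1))) / D := by
    field_simp
    rw [hD]
    ring
  rw [e1, e2, div_div_div_cancel_right₀ h1]

theorem mo_one (κ : k →+* Ω) (x : Ω) : mo κ 1 x = x := by
  unfold mo
  simp

end

end PtGM

open PtGM in
theorem gPtG (hFc : FcAStmt) (hJe : JeAStmt) (hIn : InAStmt) (hRg : RgAStmt) (hPat : PatFStmt)
    (hHt : HtAStmt) (hRegA : RegAStmt) (hRegB : RegBStmt) (hFm1 : Fm1Stmt) (hFm2 : Fm2Stmt)
    (hSq : SqAStmt) (hWn : WnAStmt) : PtGStmt := by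
  intro k _ _ Γ _ _ M P Q H g hAH hg2 hg1 hSc hHg hHH
  classical
  let _ : Fintype Γ := Fintype.ofFinite Γ
  let _ : Fintype H := Fintype.ofFinite H
  let _ : Fintype (Subgroup.zpowers g) := Fintype.ofFinite _
  obtain ⟨L, fL, aL, act, y, hfd, hgal, hbij, hQy, hPQ, hmob, a, φ, hφc, hφX⟩ := hHH
  obtain ⟨j, hj⟩ := hJe k a
  obtain ⟨Q₁, hQ₁, hQ₁u⟩ := hFm1 k Γ H L act hfd hgal hbij a φ hφc hφX
  -- the square root
  have hc : ∀ n, PowerSeries.coeff n (1 + PowerSeries.C (xx k) * PowerSeries.X :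
      PowerSeries (LaurentSeries k)) ∈ Px k := by
    intro n
    rw [map_add, PowerSeries.coeff_C_mul, PowerSeries.coeff_one, PowerSeries.coeff_X]
    refine add_mem ?_ (mul_mem (xx_mem_Px k) ?_)
    · split
      · exact one_mem _
      · exact zero_mem _
    · split
      · exact one_mem _
      · exact zero_mem _
  have hc1 : PowerSeries.constantCoeff (1 + PowerSeries.C (xx k) * PowerSeries.X :
      PowerSeries (LaurentSeries k)) = 1 := by simp
  have hhalf : ∃ h ∈ Px k, 2 * h = 1 := by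
    refine ⟨aeval (xx k) (C (2⁻¹ : k)), ⟨_, rfl⟩, ?_⟩
    have h1 : (2 : LaurentSeries k) = aeval (xx k) (C (2 : k)) := by
      rw [aeval_C, map_ofNat]
    rw [h1, ← map_mul, ← map_mul, mul_inv_cancel₀ two_ne_zero, map_one, map_one]
  obtain ⟨w₀, hw₀, hw₀2⟩ := hSq (LaurentSeries k) (Px k) hhalf _ hc hc1
  set w : LaurentSeries (LaurentSeries k) := HahnSeries.ofPowerSeries ℤ _ w₀ with hw
  have hw2 : w ^ 2 = 1 + HahnSeries.C (xx k) * HahnSeries.single 1 1 := by
    rw [hw, ← map_pow, hw₀2, map_add, map_one, map_mul, HahnSeries.ofPowerSeries_C,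
      HahnSeries.ofPowerSeries_X]
  have hw1 : w ∈ FF (Px k) := PS_le_FF ⟨w₀, hw₀, rfl⟩
  have hwn : w ∉ FF (Os k) := by
    intro h
    obtain ⟨r, hr⟩ := hIn k a j hj w hw1 h
    exact hWn k a j hj r (by rw [hr, hw2])
  have hw2m : w ^ 2 ∈ FF (Os k) := by
    rw [hw2]
    exact add_mem (one_mem _) (mul_mem (C_mem_FFOs k _) (PS_le_FF (t_mem_PS _)))
  obtain ⟨Q₂, hQ₂, hQ₂u⟩ := hFm2 (LaurentSeries (LaurentSeries k)) (FF (Os k)) Γ g hg2 hg1 w hwn
    hw2m (two_ne k)
  obtain ⟨K, actK, hPO, hz⟩ := hPat (LaurentSeries (LaurentSeries k)) (FF (Px k)) (FF (Os k))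
    (hFc k) Γ H (Subgroup.zpowers g) hHg Q₁ Q₂ hQ₁ hQ₂
  have hE : ∀ z, z ∈ FF (Px k) ⊓ FF (Os k) ↔ ∃ w, j w = z := by
    intro z
    constructor
    · intro h
      exact hIn k a j hj z (Subfield.mem_inf.1 h).1 (Subfield.mem_inf.1 h).2
    · rintro ⟨v, rfl⟩
      exact Subfield.mem_inf.2 (hRg k a j hj v)
  obtain ⟨L', fL', aL', i, act', hi, hfd', hgal', hbij', hK⟩ :=
    hHt (RatFunc (LaurentSeries k)) (LaurentSeries (LaurentSeries k)) j _ K Γ actK hE hPO
  have hinj : Function.Injective i := i.injective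
  -- the element `y`
  obtain ⟨Φ, hΦ⟩ : ∃ Φ : L →+* LaurentSeries (LaurentSeries k),
    Φ = (HahnSeries.C : LaurentSeries k →+* LaurentSeries (LaurentSeries k)).comp φ := ⟨_, rfl⟩
  have hΦa : ∀ u, Φ u = HahnSeries.C (φ u) := fun u => by rw [hΦ]; rfl
  obtain ⟨κ, hκ⟩ : ∃ κ : k →+* LaurentSeries (LaurentSeries k),
    κ = (HahnSeries.C : LaurentSeries k →+* LaurentSeries (LaurentSeries k)).comp
      (HahnSeries.C : k →+* LaurentSeries k) := ⟨_, rfl⟩
  have hκa : ∀ c, κ c = HahnSeries.C (HahnSeries.C c) := fun c => by rw [hκ]; rfl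
  have hΦκ : ∀ c : k, Φ (cstL k L c) = κ c := by
    intro c
    rw [hΦa, hκa]
    exact congrArg HahnSeries.C (hφc c)
  have hΦκ' : Φ.comp (cstL k L) = κ := RingHom.ext hΦκ
  obtain ⟨y₁, hy₁⟩ : ∃ y₁, y₁ = Φ y := ⟨_, rfl⟩
  have hy₁n : ∀ c, κ c ≠ y₁ := by
    intro c hcy
    have h1 : y = cstL k L c := by
      apply Φ.injective
      rw [hΦκ, hcy, hy₁]
    have h2 : ∀ R : k[X], eval₂ (cstL k L) y R = cstL k L (R.eval c) := by
      intro R
      rw [h1, eval₂_at_apply]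
    have h3 := congrArg φ hPQ
    rw [h2, h2, map_mul, hφX] at h3
    have h4 : ∀ d : k, φ (cstL k L d) = HahnSeries.C d := fun d => hφc d
    rw [h4, h4] at h3
    have h5 : (HahnSeries.C (Q.eval c) : LaurentSeries k) * ss k =
        HahnSeries.C (P.eval c - a * Q.eval c) := by
      rw [map_sub, map_mul, h3]
      ring
    have h6 := congrArg (fun z : LaurentSeries k => z.coeff 1) h5
    simp only [HahnSeries.C_mul_eq_smul, HahnSeries.coeff_smul, ss,
      HahnSeries.coeff_single_same, smul_eq_mul, mul_one] at h6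
    have h7 : (HahnSeries.C (P.eval c - a * Q.eval c) : LaurentSeries k).coeff 1 = 0 := by
      rw [HahnSeries.C_apply, HahnSeries.coeff_single_of_ne]
      norm_num
    rw [h7] at h6
    apply hQy
    rw [h2, h6, map_zero]
  have hact1 : ∀ h : H, Φ (act h y) = mo κ (M h) y₁ := by
    intro h
    obtain ⟨h1, h2⟩ := hmob h
    have h3 := congrArg Φ h2
    rw [map_mul, map_add, map_add, map_mul, map_mul, hΦκ, hΦκ, hΦκ, hΦκ, ← hy₁] at h3
    unfold mo
    rw [eq_div_iff (den_ne hy₁n (hAH.det h)), mul_comm]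
    exact h3
  -- the function `ψ`
  obtain ⟨ψ, hψ⟩ : ∃ ψ : Γ → LaurentSeries (LaurentSeries k), ψ = fun θ => mo κ (M θ) y₁ :=
    ⟨_, rfl⟩
  have hψ1 : ψ ∈ ind H Q₁ := by
    intro θ
    have h1 := hQ₁u ((cstL k L (M θ 0 0) * y + cstL k L (M θ 0 1)) /
      (cstL k L (M θ 1 0) * y + cstL k L (M θ 1 1)))
    convert h1 using 1
    funext h
    have hcst : ∀ c : k, act h (cstL k L c) = cstL k L c := fun c => (act h).commutes _
    have e1 : (HahnSeries.C (φ (act h ((cstL k L (M θ 0 0) * y + cstL k L (M θ 0 1)) /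
        (cstL k L (M θ 1 0) * y + cstL k L (M θ 1 1)))) ) : LaurentSeries (LaurentSeries k)) =
        mo κ (M θ) (mo κ (M h) y₁) := by
      have ha : ∀ p q : k, Φ (act h (cstL k L p * y + cstL k L q)) =
          κ p * mo κ (M h) y₁ + κ q := by
        intro p q
        rw [map_add, map_mul, hcst, hcst, map_add, map_mul, hΦκ, hΦκ, hact1]
      rw [← hΦa, map_div₀, map_div₀, ha, ha]
      rfl
    rw [e1, hψ]
    simp only []
    obtain ⟨c, hc, hM⟩ := hAH.mul h θ
    rw [hM, mo_smul κ c hc, mo_mul κ hy₁n (hAH.det h)]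
  have hM1 : Sc (M 1) := by
    obtain ⟨c, hc, hM⟩ := hAH.mul 1 1
    rw [mul_one] at hM
    have hu : IsUnit (M 1).det := isUnit_iff_ne_zero.2 (hAH.det 1)
    refine ⟨c⁻¹, ?_⟩
    have h1 : (M 1) * (M 1)⁻¹ = 1 := Matrix.mul_nonsing_inv _ hu
    have h2 : (1 : Matrix (Fin 2) (Fin 2) k) = c • M 1 := by
      calc (1 : Matrix (Fin 2) (Fin 2) k) = M 1 * (M 1)⁻¹ := h1.symm
        _ = (c • (M 1 * M 1)) * (M 1)⁻¹ := by rw [← hM]
        _ = c • (M 1 * (M 1 * (M 1)⁻¹)) := by rw [Matrix.smul_mul, Matrix.mul_assoc]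
        _ = c • M 1 := by rw [h1, Matrix.mul_one]
    rw [h2, smul_smul, inv_mul_cancel₀ hc, one_smul]
  have hScz : ∀ h ∈ Subgroup.zpowers g, Sc (M h) := by
    intro h hh
    obtain ⟨n, hn⟩ := Subgroup.mem_zpowers_iff.1 hh
    have hgg : g ^ (2 : ℤ) = 1 := by
      rw [← hg2]
      exact zpow_ofNat g 2
    rcases Int.even_or_odd' n with ⟨m, hm | hm⟩
    · rw [← hn, hm, zpow_mul, hgg, one_zpow]
      exact hM1
    · rw [← hn, hm, zpow_add, zpow_mul, hgg, one_zpow, one_mul, zpow_one]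
      exact hSc
  have hψ2 : ψ ∈ ind (Subgroup.zpowers g) Q₂ := by
    intro θ
    have h1 := hQ₂u (ψ θ) (by
      rw [hψ]
      simp only []
      unfold mo
      rw [hκa, hκa, hκa, hκa, hy₁, hΦa]
      exact div_mem (add_mem (mul_mem (C_mem_FFOs k _) (C_mem_FFOs k _)) (C_mem_FFOs k _))
        (add_mem (mul_mem (C_mem_FFOs k _) (C_mem_FFOs k _)) (C_mem_FFOs k _)))
    convert h1 using 1
    funext h
    obtain ⟨s, hs⟩ := hScz h h.2
    have hs0 : s ≠ 0 := by
      rintro rfl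
      apply hAH.det h
      rw [hs]
      simp
    obtain ⟨c, hc, hM⟩ := hAH.mul h θ
    rw [hψ]
    simp only []
    rw [hM, mo_smul κ c hc, hs, Matrix.mul_smul, Matrix.mul_one, mo_smul κ s hs0]
  obtain ⟨z, hzσ⟩ := hz _ hψ1 hψ2
  obtain ⟨y', hy', hy'σ⟩ := hK z
  have hz1 : (z : LaurentSeries (LaurentSeries k)) = y₁ := by
    have h1 := hzσ 1
    rw [map_one] at h1
    obtain ⟨s, hs⟩ := hM1
    have hs0 : s ≠ 0 := by
      rintro rfl
      apply hAH.det 1
      rw [hs]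
      simp
    rw [hψ] at h1
    simp only [hs] at h1
    rw [mo_smul κ s hs0, mo_one] at h1
    simpa using h1
  have hic : (i.comp ((algebraMap (RatFunc (LaurentSeries k)) L').comp
      (algebraMap (LaurentSeries k) (RatFunc (LaurentSeries k))))) =
      mapL (HahnSeries.C : k →+* LaurentSeries k) := by
    ext1 c
    rw [RingHom.comp_apply, RingHom.comp_apply, hi, hj.1]
  have hic2 : ∀ c : k, i (cstL (LaurentSeries k) L' (HahnSeries.C c)) = κ c := by
    intro c
    have h1 := RingHom.congr_fun hic (HahnSeries.C c)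
    rw [RingHom.comp_apply] at h1
    rw [hκa]
    refine h1.trans ?_
    apply HahnSeries.ext
    funext n
    show HahnSeries.C ((HahnSeries.single 0 c : LaurentSeries k).coeff n) =
      (HahnSeries.single 0 (HahnSeries.C c) : LaurentSeries (LaurentSeries k)).coeff n
    rw [HahnSeries.coeff_single, HahnSeries.coeff_single]
    split_ifs
    · rfl
    · rw [map_zero]
  have hic3 : (i.comp (cstL (LaurentSeries k) L')).comp
      (HahnSeries.C : k →+* LaurentSeries k) = κ := RingHom.ext hic2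
  have hev : ∀ R : k[X], i (eval₂ (cstL (LaurentSeries k) L') y'
      (R.map (HahnSeries.C : k →+* LaurentSeries k))) = Φ (eval₂ (cstL k L) y R) := by
    intro R
    rw [hom_eval₂, hom_eval₂, eval₂_map, hic3, hΦκ', hy', hz1, hy₁]
  refine ⟨L', fL', aL', act', y', hfd', hgal', hbij', ?_, ?_, ?_, ?_⟩
  · intro h
    apply hQy
    apply Φ.injective
    rw [← hev, h, map_zero, map_zero]
  · apply hinj
    rw [hev, map_mul, hev, hi, hj.2, ← hφX, ← hΦa, ← map_mul, hPQ]
  · intro σ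
    have hd := den_ne hy₁n (hAH.det σ)
    have ha : ∀ p q : k, i (cstL (LaurentSeries k) L' (HahnSeries.C p) * y' +
        cstL (LaurentSeries k) L' (HahnSeries.C q)) = κ p * y₁ + κ q := by
      intro p q
      rw [map_add, map_mul, hic2, hic2, hy', hz1]
    constructor
    · intro h
      apply hd
      have h1 := congrArg i h
      rw [map_zero] at h1
      exact (ha _ _).symm.trans h1
    · apply hinj
      rw [map_mul]
      refine (congrArg₂ (· * ·) (ha (M σ 1 0) (M σ 1 1)) ((hy'σ σ).trans (hzσ σ))).trans ?_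
      refine Eq.trans ?_ (ha (M σ 0 0) (M σ 0 1)).symm
      rw [hψ]
      simp only []
      unfold mo
      rw [mul_div_cancel₀ _ hd]
  · rintro x ⟨f, hf, hfx⟩
    have h1 : ACl (mapL (HahnSeries.C : k →+* LaurentSeries k)) :=
      hRegA k (LaurentSeries k) HahnSeries.C (hRegB k)
    have h3 : eval₂ (mapL (HahnSeries.C : k →+* LaurentSeries k)) (i x) f = 0 := by
      rw [← hic, ← hom_eval₂, hfx, map_zero]
    obtain ⟨c, hc⟩ := h1 (i x) ⟨f, hf, h3⟩
    refine ⟨c, hinj ?_⟩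
    rw [hi, hj.1, hc]

end MP7U
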