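import Pool.Agent.Lib.MP_7f581e_U.G.Spec1

/-!
# C41 (MP_7f581e_nt), Block G: a totally split rational place, Moebius version
-/

set_option autoImplicit false

namespace MP7U

open Polynomial

namespace SlGM

/-- A root of the minimal polynomial of a primitive element defines an embedding. -/
theorem exists_emb {F L Λ : Type} [Field F] [Field L] [Field Λ] [Algebra F L]
    [FiniteDimensional F L] {θ : L} (h1 : (minpoly F θ).natDegree = Module.finrank F L)
    (ψ : F →+* Λ) (β : Λ) (hβ : eval₂ ψ β (minpoly F θ) = 0) :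
    ∃ φ : L →+* Λ, ∀ r : F, φ (algebraMap F L r) = ψ r := by
  have hint : IsIntegral F θ := Algebra.IsIntegral.isIntegral θ
  have h2 : (IntermediateField.adjoin F {θ}) = ⊤ := by
    refine IntermediateField.eq_of_le_of_finrank_eq le_top ?_
    rw [IntermediateField.adjoin.finrank hint, h1, IntermediateField.finrank_top']
  let e : AdjoinRoot (minpoly F θ) ≃ₐ[F] L :=
    (IntermediateField.adjoinRootEquivAdjoin F hint).trans
      ((IntermediateField.equivOfEq h2).trans IntermediateField.topEquiv)
  refine ⟨(AdjoinRoot.lift ψ β hβ).comp (e.symm : L →+* AdjoinRoot (minpoly F θ)), fun r => ?_⟩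
  rw [RingHom.comp_apply]
  have h3 : (e.symm : L →+* AdjoinRoot (minpoly F θ)) (algebraMap F L r) =
      AdjoinRoot.of (minpoly F θ) r := e.symm.commutes r
  rw [h3, AdjoinRoot.lift_of]

/-- Substitution of `a + X` in a polynomial. -/
noncomputable def sub {k : Type} [Field k] (a : k) : k[X] →+* PowerSeries k :=
  (aeval (PowerSeries.C a + PowerSeries.X : PowerSeries k) : k[X] →ₐ[k] PowerSeries k).toRingHom

theorem sub_eq {k : Type} [Field k] (a : k) (P : k[X]) :
    sub a P = ((taylor a P : k[X]) : PowerSeries k) := by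
  have h : sub a = (coeToPowerSeries.ringHom).comp (compRingHom (X + C a)) := by
    apply Polynomial.ringHom_ext
    · intro c
      simp [sub]
    · simp [sub, add_comm]
  rw [h, taylor_apply]
  rfl

theorem sub_injective {k : Type} [Field k] (a : k) : Function.Injective (sub a) := by
  rw [injective_iff_map_eq_zero]
  intro P hP
  rw [sub_eq] at hP
  have h1 : taylor a P = 0 := by
    apply Polynomial.coe_injective
    rw [hP, Polynomial.coe_zero]
  exact taylor_injective a (by rw [h1, map_zero])

end SlGM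

open SlGM in
theorem gSlG (h1 : GenBStmt) (h2 : CopFStmt) (h3 : HslFStmt) : SlGStmt := by
  intro k _ _ hpac Γ _ _ M P Q hHH
  obtain ⟨L, _, _, act, y, hfd, hgal, hbij, hQ, hPQ, hmob, hreg⟩ := hHH
  obtain ⟨θ, m, hm, hn, hθ, hdvd, habs⟩ := h1 k L hfd hreg
  have hirr : IrrR k m := by
    have h := habs k (RingHom.id k)
    rwa [mapRingHom_id, Polynomial.map_id] at h
  have hn1 : 1 ≤ m.natDegree := by
    rw [hn]
    exact Module.finrank_pos
  obtain ⟨g, u, v, hg, huv⟩ := h2 k m hm hn1 hirr
  obtain ⟨a, b, hga, hab⟩ := hpac m hm hn1 habs g hg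
  have hder : ((derivative m).eval (C b)).eval a ≠ 0 := by
    intro h
    refine hga ?_
    have h4 := congrArg (fun q : k[X][X] => (q.eval (C b)).eval a) huv
    simp only [eval_add, eval_mul, hab, h, mul_zero, add_zero, eval_C] at h4
    exact h4.symm
  obtain ⟨β, hβ⟩ := h3 k m a b hm hab hder
  have hinj : Function.Injective ((HahnSeries.ofPowerSeries ℤ k).comp (sub a)) :=
    HahnSeries.ofPowerSeries_injective.comp (sub_injective a)
  obtain ⟨ψ, hψ⟩ : ∃ ψ : RatFunc k →+* LaurentSeries k, ∀ p : k[X],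
      ψ (algebraMap k[X] (RatFunc k) p) = HahnSeries.ofPowerSeries ℤ k (sub a p) :=
    ⟨IsFractionRing.lift (A := k[X]) (K := RatFunc k) hinj,
      fun p => IsFractionRing.lift_algebraMap hinj p⟩
  have hmin : m.map (algebraMap k[X] (RatFunc k)) = minpoly (RatFunc k) θ := by
    refine minpoly.eq_of_irreducible_of_monic hirr ?_ (hm.map _)
    rw [aeval_def, eval₂_map]
    exact hθ
  have hdeg : (minpoly (RatFunc k) θ).natDegree = Module.finrank (RatFunc k) L := by
    rw [← hmin, hm.natDegree_map, hn]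
  have hβ' : eval₂ ψ (HahnSeries.ofPowerSeries ℤ k β) (minpoly (RatFunc k) θ) = 0 := by
    rw [← hmin, eval₂_map]
    have h4 : ψ.comp (algebraMap k[X] (RatFunc k)) =
        (HahnSeries.ofPowerSeries ℤ k).comp (sub a) := RingHom.ext hψ
    rw [h4, ← hom_eval₂]
    have h5 : eval₂ (sub a) β m = 0 := hβ
    rw [h5, map_zero]
  obtain ⟨φ, hφ⟩ := exists_emb hdeg ψ _ hβ'
  refine ⟨L, inferInstance, inferInstance, act, y, hfd, hgal, hbij, hQ, hPQ, hmob, a, φ, ?_, ?_⟩
  · intro c
    rw [hφ, RatFunc.algebraMap_eq_C, ← RatFunc.algebraMap_C, hψ]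
    have h4 : sub a (C c) = PowerSeries.C c := by
      simp [sub]
    rw [h4, HahnSeries.ofPowerSeries_C]
  · rw [hφ, ← RatFunc.algebraMap_X, hψ]
    have h4 : sub a X = PowerSeries.C a + PowerSeries.X := by
      simp [sub]
    rw [h4, map_add, HahnSeries.ofPowerSeries_C, HahnSeries.ofPowerSeries_X]
    rfl

end MP7U
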