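import Pool.Agent.Lib.MP_7f581e_U.G.Spec1
import Pool.Agent.Lib.MP_7f581e_U.B.SpB

/-!
# C41 (MP_7f581e_nt), Block G: specialization, Moebius version (`SpG`)
-/

set_option autoImplicit false

namespace MP7U

open Polynomial

namespace SpGM

open SpBM

theorem core (hTr : TrBStmt) (hAct : ActBStmt) (hReg : RegCStmt)
    {K : Type} [Field K] {Γ : Type} [Group Γ] [Finite Γ]
    (L : Type) [Field L] [Algebra (RatFunc K) L] (act : Γ →* (L ≃ₐ[RatFunc K] L)) (y : L)
    (A : Subring K) (M : Γ → Matrix (Fin 2) (Fin 2) A) (P Q : A[X])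
    (hQ : eval₂ (cstL K L) y (Q.map A.subtype) ≠ 0)
    (hPQ : eval₂ (cstL K L) y (P.map A.subtype) = algebraMap (RatFunc K) L RatFunc.X *
      eval₂ (cstL K L) y (Q.map A.subtype))
    (hM1 : ∀ σ, cstL K L (M σ 1 0 : K) * y + cstL K L (M σ 1 1 : K) ≠ 0)
    (hM2 : ∀ σ, (cstL K L (M σ 1 0 : K) * y + cstL K L (M σ 1 1 : K)) * act σ y =
      cstL K L (M σ 0 0 : K) * y + cstL K L (M σ 0 1 : K))
    (θ : L) (m₀ : A[X][X]) (hm₀ : m₀.Monic) (hn : m₀.natDegree = Nat.card Γ)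
    (hroot : eval₂ (iA A L) θ m₀ = 0)
    (hdiv : ∀ G : A[X][X], eval₂ (iA A L) θ G = 0 → m₀ ∣ G)
    (d₀ : A[X]) (hG : ∀ σ, act σ θ ∈ TT (iA A L) θ d₀)
    (hU : ∀ σ, (act σ θ - θ)⁻¹ ∈ TT (iA A L) θ d₀) (hY : y ∈ TT (iA A L) θ d₀)
    (hQi : (eval₂ (cstL K L) y (Q.map A.subtype))⁻¹ ∈ TT (iA A L) θ d₀)
    (hMi : ∀ σ, (cstL K L (M σ 1 0 : K) * y + cstL K L (M σ 1 1 : K))⁻¹ ∈ TT (iA A L) θ d₀)
    (hne : ∀ σ, σ ≠ 1 → act σ θ ≠ θ)
    (k' : Type) [Field k'] (φ : A →+* k') (hφd : d₀.map φ ≠ 0)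
    (hirr : ∀ (K₁ : Type) [Field K₁] (χ : k' →+* K₁),
      IrrR K₁ (m₀.map (mapRingHom (χ.comp φ)))) :
    HHm k' Γ (fun σ => (M σ).map φ) (P.map φ) (Q.map φ) := by
  classical
  -- the target field
  have hirr0 : Irreducible (m₀.map ((algebraMap k'[X] (RatFunc k')).comp (mapRingHom φ))) := by
    have h1 := hirr k' (RingHom.id k')
    rw [RingHom.id_comp] at h1
    unfold IrrR at h1
    rw [Polynomial.map_map] at h1
    exact h1
  set ψ₀ : A[X] →+* RatFunc k' := (algebraMap k'[X] (RatFunc k')).comp (mapRingHom φ) with hψ₀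
  haveI : Fact (Irreducible (m₀.map ψ₀)) := ⟨hirr0⟩
  let L' : Type := AdjoinRoot (m₀.map ψ₀)
  letI : Field L' := AdjoinRoot.instField
  letI : Algebra (RatFunc k') L' := AdjoinRoot.instAlgebra _
  let θ' : L' := AdjoinRoot.root (m₀.map ψ₀)
  have hm' : (m₀.map ψ₀).Monic := hm₀.map ψ₀
  have hm'0 : m₀.map ψ₀ ≠ 0 := hm'.ne_zero
  have hdeg' : (m₀.map ψ₀).natDegree = Nat.card Γ := by
    rw [hm₀.natDegree_map, hn]
  have hrank : Module.finrank (RatFunc k') L' = Nat.card Γ := by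
    have h1 := (AdjoinRoot.powerBasis hm'0).finrank
    rw [AdjoinRoot.powerBasis_dim] at h1
    exact h1.trans hdeg'
  have hroot' : eval₂ ((algebraMap (RatFunc k') L').comp ψ₀) θ' m₀ = 0 := by
    have h1 : eval₂ (AdjoinRoot.of (m₀.map ψ₀)) (AdjoinRoot.root (m₀.map ψ₀)) (m₀.map ψ₀) = 0 :=
      AdjoinRoot.eval₂_root _
    rw [eval₂_map] at h1
    exact h1
  have hψd : ψ₀ d₀ ≠ 0 := by
    intro h0
    apply hφd
    have h1 : algebraMap k'[X] (RatFunc k') (d₀.map φ) = 0 := h0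
    rwa [map_eq_zero_iff _ (RatFunc.algebraMap_injective k')] at h1
  have hψd' : ((algebraMap (RatFunc k') L').comp ψ₀) d₀ ≠ 0 := by
    rw [RingHom.comp_apply]
    intro h0
    exact hψd ((map_eq_zero_iff _ (algebraMap (RatFunc k') L').injective).1 h0)
  -- the transfer
  obtain ⟨ψ, hψ⟩ := hTr A[X] L L' (iA A L) θ d₀ m₀ hdiv ((algebraMap (RatFunc k') L').comp ψ₀) θ'
    hψd' hroot'
  let T := TT (iA A L) θ d₀
  let ι' : A[X] →+* T := (iA A L).codRestrict T (iA_mem A θ d₀)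
  let θT : T := ⟨θ, th_mem A θ d₀⟩
  let yT : T := ⟨y, hY⟩
  have hψι : ∀ r, ψ (ι' r) = algebraMap (RatFunc k') L' (ψ₀ r) := by
    intro r
    have h1 := hψ (ι' r) 0 (C r) (by
      rw [pow_zero, one_mul, eval₂_C]; rfl)
    rw [pow_zero, one_mul, eval₂_C] at h1
    exact h1
  have hψθ : ψ θT = θ' := by
    have h1 := hψ θT 0 X (by rw [pow_zero, one_mul, eval₂_X])
    rw [pow_zero, one_mul, eval₂_X] at h1
    exact h1
  have hcoe : ∀ (w : T) (G : A[X][X]), ((eval₂ ι' w G : T) : L) = eval₂ (iA A L) (w : L) G := by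
    intro w G
    have h1 := Polynomial.hom_eval₂ G ι' T.subtype w
    exact h1
  -- the action
  obtain ⟨act', hbij, hfd, hgal, hact'⟩ := hAct Γ A[X] T (RatFunc k') L' ι' (al hG) θT d₀ m₀ ψ₀ ψ
    (fun σ r => Subtype.ext (act_iA act A σ r))
    (fun z => by
      obtain ⟨N, G, h⟩ := z.2
      refine ⟨N, G, Subtype.ext ?_⟩
      rw [hcoe]
      exact h)
    hm₀ hn
    (Subtype.ext (by rw [hcoe]; exact hroot))
    hψd hirr0 hψι hrank
    (fun σ hσ => by
      have h1 : act σ θ - θ ≠ 0 := sub_ne_zero.2 (hne σ hσ)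
      refine IsUnit.of_mul_eq_one ⟨(act σ θ - θ)⁻¹, hU σ⟩ (Subtype.ext ?_)
      exact mul_inv_cancel₀ h1)
  -- constants
  have hcst : ∀ a : A, ((ι' (C a) : T) : L) = cstL K L (a : K) := by
    intro a
    show algebraMap (RatFunc K) L (algebraMap K[X] (RatFunc K) (mapRingHom A.subtype (C a))) = _
    rw [coe_mapRingHom, map_C]
    rfl
  have hψc : ∀ a : A, ψ (ι' (C a)) = cstL k' L' (φ a) := by
    intro a
    rw [hψι]
    show algebraMap (RatFunc k') L' (algebraMap k'[X] (RatFunc k') (mapRingHom φ (C a))) = _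
    rw [coe_mapRingHom, map_C]
    rfl
  have hcX : ((ι' X : T) : L) = algebraMap (RatFunc K) L RatFunc.X := by
    show algebraMap (RatFunc K) L (algebraMap K[X] (RatFunc K) (mapRingHom A.subtype X)) = _
    rw [coe_mapRingHom, map_X, RatFunc.algebraMap_X]
  have hψX : ψ (ι' X) = algebraMap (RatFunc k') L' RatFunc.X := by
    rw [hψι]
    show algebraMap (RatFunc k') L' (algebraMap k'[X] (RatFunc k') (mapRingHom φ X)) = _
    rw [coe_mapRingHom, map_X, RatFunc.algebraMap_X]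
  have hcE : ∀ F : A[X], ((eval₂ (ι'.comp C) yT F : T) : L) =
      eval₂ (cstL K L) y (F.map A.subtype) := by
    intro F
    have h1 := Polynomial.hom_eval₂ F (ι'.comp C) T.subtype yT
    rw [eval₂_map]
    have h2 : T.subtype.comp (ι'.comp C) = (cstL K L).comp A.subtype := RingHom.ext hcst
    rw [h2] at h1
    exact h1
  have hψE : ∀ F : A[X], ψ (eval₂ (ι'.comp C) yT F) = eval₂ (cstL k' L') (ψ yT) (F.map φ) := by
    intro F
    have h1 := Polynomial.hom_eval₂ F (ι'.comp C) ψ yT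
    rw [eval₂_map]
    have h2 : ψ.comp (ι'.comp C) = (cstL k' L').comp φ := RingHom.ext hψc
    rw [h2] at h1
    exact h1
  have hunit : ∀ z : T, (z : L) ≠ 0 → ((z : L))⁻¹ ∈ T → ψ z ≠ 0 := by
    intro z hz hz' h0
    have h1 : z * ⟨(z : L)⁻¹, hz'⟩ = 1 := Subtype.ext (mul_inv_cancel₀ hz)
    have h2 := congrArg ψ h1
    rw [map_mul, h0, zero_mul, map_one] at h2
    exact zero_ne_one h2
  refine ⟨L', inferInstance, inferInstance, act', ψ yT, hfd, hgal, hbij, ?_, ?_, ?_, ?_⟩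
  · rw [← hψE]
    exact hunit _ (by rw [hcE]; exact hQ) (by rw [hcE]; exact hQi)
  · rw [← hψE, ← hψE, ← hψX, ← map_mul]
    congr 1
    refine Subtype.ext ?_
    show ((eval₂ (ι'.comp C) yT P : T) : L) = ((ι' X : T) : L) * ((eval₂ (ι'.comp C) yT Q : T) : L)
    rw [hcE, hcE, hcX]
    exact hPQ
  · intro σ
    have hden : ((ι' (C (M σ 1 0)) * yT + ι' (C (M σ 1 1)) : T) : L) =
        cstL K L (M σ 1 0 : K) * y + cstL K L (M σ 1 1 : K) := by
      show ((ι' (C (M σ 1 0)) : T) : L) * y + ((ι' (C (M σ 1 1)) : T) : L) = _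
      rw [hcst, hcst]
    have hnum : ((ι' (C (M σ 0 0)) * yT + ι' (C (M σ 0 1)) : T) : L) =
        cstL K L (M σ 0 0 : K) * y + cstL K L (M σ 0 1 : K) := by
      show ((ι' (C (M σ 0 0)) : T) : L) * y + ((ι' (C (M σ 0 1)) : T) : L) = _
      rw [hcst, hcst]
    have hψden : ψ (ι' (C (M σ 1 0)) * yT + ι' (C (M σ 1 1))) =
        cstL k' L' (φ (M σ 1 0)) * ψ yT + cstL k' L' (φ (M σ 1 1)) := by
      rw [map_add, map_mul, hψc, hψc]
    have hψnum : ψ (ι' (C (M σ 0 0)) * yT + ι' (C (M σ 0 1))) =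
        cstL k' L' (φ (M σ 0 0)) * ψ yT + cstL k' L' (φ (M σ 0 1)) := by
      rw [map_add, map_mul, hψc, hψc]
    refine ⟨?_, ?_⟩
    · show cstL k' L' (φ (M σ 1 0)) * ψ yT + cstL k' L' (φ (M σ 1 1)) ≠ 0
      rw [← hψden]
      exact hunit _ (by rw [hden]; exact hM1 σ) (by rw [hden]; exact hMi σ)
    · show (cstL k' L' (φ (M σ 1 0)) * ψ yT + cstL k' L' (φ (M σ 1 1))) * act' σ (ψ yT) =
        cstL k' L' (φ (M σ 0 0)) * ψ yT + cstL k' L' (φ (M σ 0 1))
      rw [← hψden, ← hψnum, hact', ← map_mul]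
      congr 1
      refine Subtype.ext ?_
      show ((ι' (C (M σ 1 0)) * yT + ι' (C (M σ 1 1)) : T) : L) * act σ y = _
      rw [hden, hnum]
      exact hM2 σ
  · have h2 := hReg k' L' θ' (m₀.map (mapRingHom φ)) hfd (hm₀.map _) (by
      rw [hm₀.natDegree_map, hn, hrank]) (by
      rw [eval₂_map]
      exact hroot') (by
      intro K₁ _ χ
      have h3 := hirr K₁ χ
      rw [Polynomial.map_map]
      have h4 : (mapRingHom χ).comp (mapRingHom φ) = mapRingHom (χ.comp φ) := by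
        ext <;> simp
      rw [h4]
      exact h3)
    exact h2

end SpGM

theorem gSpG (hIrr : IrrBStmt) (hGen : GenBStmt) (hDen : DenBStmt) (hTr : TrBStmt)
    (hAct : ActBStmt) (hReg : RegCStmt) : SpGStmt := by
  intro K _ _ Γ _ _ M P Q hHH
  classical
  obtain ⟨L, instF, instA, act, y, hfd, hgal, hbij, hQy, hPQ, hMob, hreg⟩ := hHH
  haveI := hfd
  haveI := hgal
  obtain ⟨θ, m, hm, hmdeg, hmroot, hmdiv, hmabs⟩ := hGen K L hfd hreg
  have hcard : Nat.card Γ = Module.finrank (RatFunc K) L := by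
    rw [Nat.card_congr (Equiv.ofBijective _ hbij), IsGalois.card_aut_eq_finrank]
  have hpos : 1 ≤ m.natDegree := by
    rw [hmdeg]
    exact Module.finrank_pos
  obtain ⟨S₁, hS₁, hS₁irr⟩ := hIrr K m hm hpos hmabs
  -- common denominators
  obtain ⟨d, G, hd0, hG⟩ := hDen K L θ m hfd hm hmdeg hmdiv (Γ ⊕ Γ ⊕ Γ ⊕ Unit ⊕ Unit)
    (Sum.elim (fun σ => act σ θ) (Sum.elim (fun σ => (act σ θ - θ)⁻¹)
      (Sum.elim (fun σ => (cstL K L (M σ 1 0) * y + cstL K L (M σ 1 1))⁻¹)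
        (Sum.elim (fun _ => y) (fun _ => (eval₂ (cstL K L) y Q)⁻¹)))))
  have hstr0 : ∀ p : K[X], p ≠ 0 → strL K L p ≠ 0 := by
    intro p hp h0
    apply hp
    have h1 : algebraMap (RatFunc K) L (algebraMap K[X] (RatFunc K) p) = 0 := h0
    rw [map_eq_zero_iff _ (algebraMap (RatFunc K) L).injective,
      map_eq_zero_iff _ (RatFunc.algebraMap_injective K)] at h1
    exact h1
  have hne : ∀ σ, σ ≠ 1 → act σ θ ≠ θ := by
    intro σ hσ h0
    apply hσ
    apply hbij.1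
    rw [map_one]
    ext z
    obtain ⟨d', G', hd', hG'⟩ := hDen K L θ m hfd hm hmdeg hmdiv Unit (fun _ => z)
    have h1 := hG' ()
    have h2 := congrArg (act σ) h1
    have h3 : ∀ p : K[X], act σ (strL K L p) = strL K L p := fun p => (act σ).commutes _
    have h4 : act σ (eval₂ (strL K L) θ (G' ())) = eval₂ (strL K L) θ (G' ()) := by
      have h5 := Polynomial.hom_eval₂ (G' ()) (strL K L) ((act σ : L ≃ₐ[RatFunc K] L) : L →+* L) θ
      have h6 : (((act σ : L ≃ₐ[RatFunc K] L) : L →+* L)).comp (strL K L) = strL K L :=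
        RingHom.ext h3
      rw [h6] at h5
      have h7 : ((act σ : L ≃ₐ[RatFunc K] L) : L →+* L) θ = θ := h0
      rw [h7] at h5
      exact h5
    rw [map_mul, h3, h4, ← h1] at h2
    rw [AlgEquiv.one_apply]
    exact mul_left_cancel₀ (hstr0 d' hd') h2
  -- the finite set
  choose F hF using fun j => SpBM.coeffs_fin (G j)
  have hFd : ∃ Sd : Finset K, ∀ j, d.coeff j = 0 ∨ d.coeff j ∈ Sd := by
    refine ⟨d.support.image fun j => d.coeff j, fun j => ?_⟩
    by_cases h : d.coeff j = 0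
    · exact Or.inl h
    · exact Or.inr (Finset.mem_image.2 ⟨j, by rw [mem_support_iff]; exact h, rfl⟩)
  obtain ⟨Sd, hSd⟩ := hFd
  haveI : Fintype Γ := Fintype.ofFinite Γ
  let S : Finset K := S₁ ∪ (Finset.univ.biUnion F ∪ (Sd ∪ ({d.leadingCoeff⁻¹} ∪
    (Finset.univ.image (fun t : Γ × Fin 2 × Fin 2 => M t.1 t.2.1 t.2.2) ∪
      (P.support.image P.coeff ∪ Q.support.image Q.coeff)))))
  have hS₁S : S₁ ⊆ S := Finset.subset_union_left
  have hmA : ∀ i j, (m.coeff i).coeff j ∈ cl S := fun i j => SpBM.cl_mono hS₁S (hS₁ i j)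
  have hdA : ∀ j, d.coeff j ∈ cl S := by
    intro j
    apply SpBM.mem_cl_of
    rcases hSd j with h | h
    · exact Or.inl h
    · exact Or.inr (Finset.mem_union_right _ (Finset.mem_union_right _ (Finset.mem_union_left _ h)))
  have hGA : ∀ g i j, ((G g).coeff i).coeff j ∈ cl S := by
    intro g i j
    apply SpBM.mem_cl_of
    rcases hF g i j with h | h
    · exact Or.inl h
    · exact Or.inr (Finset.mem_union_right _ (Finset.mem_union_left _
        (Finset.mem_biUnion.2 ⟨g, Finset.mem_univ _, h⟩)))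
  have hlA : d.leadingCoeff⁻¹ ∈ cl S := by
    apply SpBM.mem_cl_of
    exact Or.inr (Finset.mem_union_right _ (Finset.mem_union_right _
      (Finset.mem_union_right _ (Finset.mem_union_left _ (Finset.mem_singleton_self _)))))
  have hMA : ∀ σ i j, M σ i j ∈ cl S := by
    intro σ i j
    apply SpBM.mem_cl_of
    exact Or.inr (Finset.mem_union_right _ (Finset.mem_union_right _ (Finset.mem_union_right _
      (Finset.mem_union_right _ (Finset.mem_union_left _
        (Finset.mem_image.2 ⟨(σ, i, j), Finset.mem_univ _, rfl⟩))))))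
  have hPA : ∀ i, P.coeff i ∈ cl S := by
    intro i
    apply SpBM.mem_cl_of
    by_cases h : P.coeff i = 0
    · exact Or.inl h
    · exact Or.inr (Finset.mem_union_right _ (Finset.mem_union_right _ (Finset.mem_union_right _
        (Finset.mem_union_right _ (Finset.mem_union_right _ (Finset.mem_union_left _
          (Finset.mem_image.2 ⟨i, by rw [mem_support_iff]; exact h, rfl⟩)))))))
  have hQA : ∀ i, Q.coeff i ∈ cl S := by
    intro i
    apply SpBM.mem_cl_of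
    by_cases h : Q.coeff i = 0
    · exact Or.inl h
    · exact Or.inr (Finset.mem_union_right _ (Finset.mem_union_right _ (Finset.mem_union_right _
        (Finset.mem_union_right _ (Finset.mem_union_right _ (Finset.mem_union_right _
          (Finset.mem_image.2 ⟨i, by rw [mem_support_iff]; exact h, rfl⟩)))))))
  refine ⟨S, hMA, hPA, hQA, fun k' _ φ M' P' Q' hM' hP' hQ' => ?_⟩
  obtain ⟨P₀, hP₀⟩ := SpBM.lift1 (cl S) P hPA
  obtain ⟨Q₀, hQ₀⟩ := SpBM.lift1 (cl S) Q hQA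
  have hPe : P' = P₀.map φ := by
    ext i
    rw [coeff_map, hP' i (hPA i)]
    congr 1
    refine Subtype.ext ?_
    show P.coeff i = _
    rw [← hP₀, coeff_map]
    rfl
  have hQe : Q' = Q₀.map φ := by
    ext i
    rw [coeff_map, hQ' i (hQA i)]
    congr 1
    refine Subtype.ext ?_
    show Q.coeff i = _
    rw [← hQ₀, coeff_map]
    rfl
  let M₀ : Γ → Matrix (Fin 2) (Fin 2) (cl S) := fun σ => Matrix.of fun i j => ⟨M σ i j, hMA σ i j⟩
  have hMe : M' = fun σ => (M₀ σ).map φ := by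
    funext σ
    ext i j
    exact hM' σ i j (hMA σ i j)
  rw [hPe, hQe, hMe]
  obtain ⟨m₀, hm₀⟩ := SpBM.lift2 (cl S) m hmA
  obtain ⟨d₀, hd₀⟩ := SpBM.lift1 (cl S) d hdA
  choose G₀ hG₀ using fun g => SpBM.lift2 (cl S) (G g) (hGA g)
  have hinj : Function.Injective (mapRingHom (cl S).subtype) :=
    Polynomial.map_injective _ Subtype.val_injective
  have hm₀m : m₀.Monic := by
    apply Polynomial.monic_of_injective hinj
    rw [hm₀]
    exact hm
  have hm₀d : m₀.natDegree = m.natDegree := by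
    rw [← hm₀, hm₀m.natDegree_map]
  have hev : ∀ (w : L) (H : (cl S)[X][X]),
      eval₂ (SpBM.iA (cl S) L) w H = eval₂ (strL K L) w (H.map (mapRingHom (cl S).subtype)) := by
    intro w H
    rw [eval₂_map]
  have hdv : ∀ H : (cl S)[X][X], eval₂ (SpBM.iA (cl S) L) θ H = 0 → m₀ ∣ H := by
    intro H hH
    rw [← Polynomial.modByMonic_eq_zero_iff_dvd hm₀m]
    have hr : eval₂ (SpBM.iA (cl S) L) θ (H %ₘ m₀) = 0 := by
      have h1 := Polynomial.modByMonic_add_div H m₀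
      rw [← h1, eval₂_add, eval₂_mul, hev θ m₀, hm₀, hmroot, zero_mul, add_zero] at hH
      exact hH
    rw [hev] at hr
    have h2 := hmdiv _ hr
    apply Polynomial.map_injective _ hinj
    rw [Polynomial.map_zero]
    by_contra h3
    have h4 := Polynomial.degree_le_of_dvd h2 h3
    have h5 := Polynomial.degree_modByMonic_lt H hm₀m
    have h6 : ((H %ₘ m₀).map (mapRingHom (cl S).subtype)).degree ≤ (H %ₘ m₀).degree :=
      Polynomial.degree_map_le
    have h7 : m.degree = m₀.degree := by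
      rw [← hm₀, hm₀m.degree_map]
    rw [h7] at h4
    exact absurd (lt_of_le_of_lt (h4.trans h6) h5) (lt_irrefl _)
  have hid : SpBM.iA (cl S) L d₀ = strL K L d := by
    show strL K L (mapRingHom (cl S).subtype d₀) = _
    rw [coe_mapRingHom, hd₀]
  have hTT : ∀ (g : Γ ⊕ Γ ⊕ Γ ⊕ Unit ⊕ Unit) (z : L), strL K L d * z = eval₂ (strL K L) θ (G g) →
      z ∈ TT (SpBM.iA (cl S) L) θ d₀ := by
    intro g z h
    apply SpBM.mem_of_one (cl S) θ d₀ z (G₀ g)
    rw [hid, hev, hG₀, h]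
  refine SpGM.core hTr hAct hReg L act y (cl S) M₀ P₀ Q₀ (by rw [hQ₀]; exact hQy)
    (by rw [hQ₀, hP₀]; exact hPQ) (fun σ => (hMob σ).1) (fun σ => (hMob σ).2)
    θ m₀ hm₀m (by rw [hm₀d, hmdeg, hcard])
    (by rw [hev, hm₀, hmroot]) hdv d₀ (fun σ => hTT (Sum.inl σ) _ (hG (Sum.inl σ)))
    (fun σ => hTT (Sum.inr (Sum.inl σ)) _ (hG (Sum.inr (Sum.inl σ))))
    (hTT (Sum.inr (Sum.inr (Sum.inr (Sum.inl ())))) _
      (hG (Sum.inr (Sum.inr (Sum.inr (Sum.inl ()))))))
    (by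
      rw [hQ₀]
      exact hTT (Sum.inr (Sum.inr (Sum.inr (Sum.inr ())))) _
        (hG (Sum.inr (Sum.inr (Sum.inr (Sum.inr ()))))))
    (fun σ => hTT (Sum.inr (Sum.inr (Sum.inl σ))) _ (hG (Sum.inr (Sum.inr (Sum.inl σ)))))
    hne k' φ ?_ ?_
  · intro h0
    have h1 : φ (d₀.coeff d.natDegree) = 0 := by
      have h2 := congrArg (fun p => Polynomial.coeff p d.natDegree) h0
      simpa [coeff_map] using h2
    have h3 : ((d₀.coeff d.natDegree : cl S) : K) = d.leadingCoeff := by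
      have h4 := congrArg (fun p => Polynomial.coeff p d.natDegree) hd₀
      simpa [coeff_map] using h4
    have h5 : d₀.coeff d.natDegree * (⟨d.leadingCoeff⁻¹, hlA⟩ : cl S) = 1 := by
      apply Subtype.ext
      show ((d₀.coeff d.natDegree : cl S) : K) * d.leadingCoeff⁻¹ = 1
      rw [h3]
      exact mul_inv_cancel₀ (leadingCoeff_ne_zero.2 hd0)
    have h6 := congrArg φ h5
    rw [map_mul, h1, zero_mul, map_one] at h6
    exact zero_ne_one h6
  · intro K₁ _ χ
    exact hS₁irr S hS₁S K₁ (χ.comp φ) m₀ hm₀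

end MP7U
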