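import Pool.Agent.Lib.MP_7f581e_U.C.All
import Pool.Agent.Lib.MP_7f581e_U.F.All
import Pool.Agent.Lib.MP_7f581e_U.G.SpG
import Pool.Agent.Lib.MP_7f581e_U.G.PtG
import Pool.Agent.Lib.MP_7f581e_U.G.SlG
import Pool.Agent.Lib.MP_7f581e_U.G.MbG
import Pool.Agent.Lib.MP_7f581e_U.G.CnG
import Pool.Agent.Lib.MP_7f581e_U.G.ExG

/-!
# C41 (MP_7f581e_nt), Block G, assembly
-/

set_option autoImplicit false

namespace MP7U

theorem xSpG : SpGStmt := gSpG xIrrB xGenB xDenB xTrB xActB xRegC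

theorem xPtG : PtGStmt := gPtG xFcA xJeA xInA xRgA xPatF xHtA xRegA xRegB xFm1 xFm2 xSqA xWnA

theorem xSlG : SlGStmt := gSlG xGenB xCopF xHslF

theorem xMbG : MbGStmt := gMbG

theorem xCnG : CnGStmt := gCnG

theorem xExG : ExGStmt := gExG

end MP7U
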