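import Pool.Agent.Lib.MP_7f581e_U.F.Spec1

/-!
# C41 (MP_7f581e_nt), Block G: the general form, with a group of Moebius transformations

Blocks A, B, F realise groups `Γ` with a sign `ε : Γ → {1, -1}` and an element `y`, `y² = X^e`, `σ y = ε(σ) y`.  Here
the sign is replaced by Moebius transformations: `σ y = M_σ(y)`, `M_σ ∈ GL₂(k)`, and `X = P(y) / Q(y)`.

One Lean task for each `def XStmt : Prop`: file `MP_7f581e_U/G/X.lean`, import this file,
`namespace MP7U`, `theorem gX : XStmt` (statements which are used are hypotheses, in the order of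
the docstring: `theorem gX (h1 : AStmt) (h2 : BStmt) : XStmt`).  The proofs of the corresponding modules of the blocks A, B, D, F
(on main) can be copied and changed.
-/

set_option autoImplicit false

namespace MP7U

open Polynomial

/-- `v = M(u)`: the Moebius transformation with the matrix `M`. -/
def Mob {k L : Type} [Field k] [Field L] (κ : k →+* L) (M : Matrix (Fin 2) (Fin 2) k)
    (u v : L) : Prop :=
  κ (M 1 0) * u + κ (M 1 1) ≠ 0 ∧
    (κ (M 1 0) * u + κ (M 1 1)) * v = κ (M 0 0) * u + κ (M 0 1)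

/-- The constants. -/
noncomputable abbrev cstL (k L : Type) [Field k] [Field L] [Algebra (RatFunc k) L] : k →+* L :=
  (algebraMap (RatFunc k) L).comp (algebraMap k (RatFunc k))

/-- `σ ↦ M_σ` is, up to scalars, an antihomomorphism to `GL₂(k)`. -/
structure IsAH {k Γ : Type} [Field k] [Group Γ] (M : Γ → Matrix (Fin 2) (Fin 2) k) : Prop where
  det : ∀ σ, (M σ).det ≠ 0
  mul : ∀ σ τ, ∃ c : k, c ≠ 0 ∧ M (σ * τ) = c • (M τ * M σ)

/-- A scalar matrix. -/
def Sc {k : Type} [Field k] (M : Matrix (Fin 2) (Fin 2) k) : Prop :=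
  ∃ c : k, M = c • (1 : Matrix (Fin 2) (Fin 2) k)

/-- `∑ P_i (a X + b)^i (c X + d)^(n - i)`. -/
noncomputable def hom2 {k : Type} [CommRing k] (n : ℕ) (M : Matrix (Fin 2) (Fin 2) k) (P : k[X]) :
    k[X] :=
  ∑ i ∈ Finset.range (n + 1), C (P.coeff i) * (C (M 0 0) * X + C (M 0 1)) ^ i *
    (C (M 1 0) * X + C (M 1 1)) ^ (n - i)

/-- `P / Q` is a rational function of degree `n = card Δ` which is invariant under all `M_σ`. -/
structure IsPQ {k Δ : Type} [Field k] [Group Δ] (M : Δ → Matrix (Fin 2) (Fin 2) k)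
    (P Q : k[X]) : Prop where
  cop : IsCoprime P Q
  deg : max P.natDegree Q.natDegree = Nat.card Δ
  inv : ∀ σ, hom2 (Nat.card Δ) (M σ) P * Q = hom2 (Nat.card Δ) (M σ) Q * P

/-- `Γ` is a Galois group over `k(X)`, regularly over `k`, by an extension `L` which contains an
element `y` with `X = P(y) / Q(y)` on which `σ ∈ Γ` acts as `M_σ`. -/
def HHm (k : Type) [Field k] (Γ : Type) [Group Γ] (M : Γ → Matrix (Fin 2) (Fin 2) k)
    (P Q : k[X]) : Prop :=
  ∃ (L : Type) (_ : Field L) (_ : Algebra (RatFunc k) L) (act : Γ →* (L ≃ₐ[RatFunc k] L)) (y : L),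
    FiniteDimensional (RatFunc k) L ∧ IsGalois (RatFunc k) L ∧ Function.Bijective act ∧
    eval₂ (cstL k L) y Q ≠ 0 ∧
    eval₂ (cstL k L) y P = algebraMap (RatFunc k) L RatFunc.X * eval₂ (cstL k L) y Q ∧
    (∀ σ, Mob (cstL k L) (M σ) y (act σ y)) ∧ RegL k L

/-- `HHm` with an embedding `L → k((s))`, `X ↦ a + s`. -/
def HHms (k : Type) [Field k] (Γ : Type) [Group Γ] (M : Γ → Matrix (Fin 2) (Fin 2) k)
    (P Q : k[X]) : Prop :=
  ∃ (L : Type) (_ : Field L) (_ : Algebra (RatFunc k) L) (act : Γ →* (L ≃ₐ[RatFunc k] L)) (y : L),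
    FiniteDimensional (RatFunc k) L ∧ IsGalois (RatFunc k) L ∧ Function.Bijective act ∧
    eval₂ (cstL k L) y Q ≠ 0 ∧
    eval₂ (cstL k L) y P = algebraMap (RatFunc k) L RatFunc.X * eval₂ (cstL k L) y Q ∧
    (∀ σ, Mob (cstL k L) (M σ) y (act σ y)) ∧
    ∃ (a : k) (φ : L →+* LaurentSeries k),
      (∀ c : k, φ (algebraMap (RatFunc k) L (algebraMap k (RatFunc k) c)) = HahnSeries.C c) ∧
      φ (algebraMap (RatFunc k) L RatFunc.X) = HahnSeries.C a + ss k

/-- **SpG.** (250 lines)  Uses IrrB, GenB, DenB, TrB, ActB, RegC (block B, in this order).  Specialization; as SpB.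

*Proof.*  As in SpB (`B/SpB.lean`).  The finite family for DenB is: `act σ θ`, `(act σ θ - θ)⁻¹` (`σ ≠ 1`), `y`, `(eval₂ y Q)⁻¹`, `(M_σ(1,0) y + M_σ(1,1))⁻¹` (all constants through `cstL`).  `S` contains in addition the entries of the `M σ` and the
coefficients of `P` and `Q`.  All these elements are in `T = TT ι θ d₀`, and `ψ : T → L'` maps `y` to `y'`; the relations `P(y) = X Q(y)`, `(c y + d) act σ y = a y + b` are relations in `T`, so they are true for `y'` with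
the coefficients mapped by `φ`; `Q(y')` and `c y' + d` are images of units of `T`, so they are not zero. -/
def SpGStmt : Prop :=
  ∀ (K : Type) [Field K] [CharZero K] (Γ : Type) [Group Γ] [Finite Γ]
    (M : Γ → Matrix (Fin 2) (Fin 2) K) (P Q : K[X]), HHm K Γ M P Q →
    ∃ S : Finset K, (∀ σ i j, M σ i j ∈ cl S) ∧ (∀ i, P.coeff i ∈ cl S) ∧
      (∀ i, Q.coeff i ∈ cl S) ∧ ∀ (k' : Type) [Field k'] (φ : cl S →+* k')
      (M' : Γ → Matrix (Fin 2) (Fin 2) k') (P' Q' : k'[X]),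
      (∀ σ i j (h : M σ i j ∈ cl S), M' σ i j = φ ⟨M σ i j, h⟩) →
      (∀ i (h : P.coeff i ∈ cl S), P'.coeff i = φ ⟨P.coeff i, h⟩) →
      (∀ i (h : Q.coeff i ∈ cl S), Q'.coeff i = φ ⟨Q.coeff i, h⟩) → HHm k' Γ M' P' Q'

/-- **PtG.** (250 lines)  Uses FcA, JeA, InA, RgA, PatF, HtA, RegA, RegB, Fm1, Fm2, SqA, WnA (block A, in this order).
The patching theorem; as PatA.

*Proof.*  As in PatA (`A/PatA.lean`), except for the part about `y`.  Let `κ = C : k → Λ`, `y₁ = C (φ y) ∈ Ω`.  `y₁` is not in the image of `k`: otherwise `X = P(y)/Q(y)` would be a constant (`φ` is injective, `φ X = a + s`).  So for every invertible matrix `N` over `k` the element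
`N(y₁) = (a y₁ + b) / (c y₁ + d)` is defined (`c y₁ + d ≠ 0`), and `(N N')(y₁) = N(N'(y₁))`.  `ψ θ = M_θ(y₁)`, for `θ ∈ Γ`.  `ψ ∈ ind H Q₁`: `h ↦ M_(h θ)(y₁) = M_θ(M_h(y₁)) = C (φ (act h (M_θ(y))))` (`IsAH.mul`, scalars do not matter; `act h y = M_h(y)`; `M_θ(y) ∈ L` is defined
in the same way).  `ψ ∈ ind H₂ Q₂`: `M_(g θ) = c M_θ M_g` and `M_g` is a scalar, so `ψ` is constant on `H₂ θ`, with value in `P₂`.  So there is `z ∈ K` with `act σ z = M_σ(y₁)`; `M_1` is a scalar matrix (`M_1 = c M_1 M_1`), so `z = y₁` and `act σ z = M_σ(z)`; `P(z) = X Q(z)` because `C ∘ φ` is a homomorphism. -/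
def PtGStmt : Prop :=
  ∀ (k : Type) [Field k] [CharZero k] (Γ : Type) [Group Γ] [Finite Γ]
    (M : Γ → Matrix (Fin 2) (Fin 2) k) (P Q : k[X]) (H : Subgroup Γ) (g : Γ), IsAH M →
    g ^ 2 = 1 → g ≠ 1 → Sc (M g) → H ⊔ Subgroup.zpowers g = ⊤ →
    HHms k H (fun h => M h) P Q →
    HHm (LaurentSeries k) Γ (fun σ => (M σ).map (HahnSeries.C : k →+* LaurentSeries k))
      (P.map (HahnSeries.C : k →+* LaurentSeries k)) (Q.map (HahnSeries.C : k →+* LaurentSeries k))

/-- **SlG.** (150 lines)  Uses GenB (block B), CopF, HslF (block F) in this order.  As SplF.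

*Proof.*  As in SplF (`F/SplF.lean`); `y` does not play a role. -/
def SlGStmt : Prop :=
  ∀ (k : Type) [Field k] [CharZero k], PAC k → ∀ (Γ : Type) [Group Γ] [Finite Γ]
    (M : Γ → Matrix (Fin 2) (Fin 2) k) (P Q : k[X]), HHm k Γ M P Q → HHms k Γ M P Q

/-- **MbG.** (100 lines)  Moebius transformations act on `k(Y)`.

*Proof.*  `R = RatFunc k`, `Y = RatFunc.X`.  For an invertible matrix `N` put `N(Y) = (a Y + b) / (c Y + d)`, `α_N : R → R` the `k`-homomorphism with `Y ↦ N(Y)` (injective on `k[Y]` because `N(Y)` is transcendental over `k`, e.g. because `α_N α_(N⁻¹) = id` on generators, or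
because it generates `R`).  `α_N (N'(Y)) = N'(N(Y)) = (N' N)(Y)`, so `α_(M_σ) α_(M_τ) Y = α_(M_σ) (M_τ(Y)) = (M_τ M_σ)(Y) = M_(σ τ)(Y)`.  `M_1 = c M_1 M_1` is a scalar, `α_(M_1) = id`.  So `act σ = α_(M_σ)` is a homomorphism `Δ → (R ≃ₐ[k] R)`; if `act σ = 1` then `M_σ(Y) = Y`, i.e.
`a Y + b = c Y² + d Y`, so `M_σ` is a scalar. -/
def MbGStmt : Prop :=
  ∀ (k : Type) [Field k] (Δ : Type) [Group Δ] (M : Δ → Matrix (Fin 2) (Fin 2) k), IsAH M →
    (∀ σ, Sc (M σ) → σ = 1) → ∃ act : Δ →* (RatFunc k ≃ₐ[k] RatFunc k),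
      Function.Injective act ∧ ∀ σ, Mob (algebraMap k (RatFunc k)) (M σ) RatFunc.X
        (act σ RatFunc.X)

/-- **LuG.** (150 lines)  Uses MbG.  An invariant rational function of degree `card Δ` (Lueroth).

*Proof.*  `act` from MbG.  The fixed field `F` of `act(Δ)` in `R = RatFunc k` (an intermediate field of `R / k`) has `[R : F] = card Δ` (Artin, `IntermediateField.finrank_fixedField_eq_card`-like or `FixedPoints.finrank_eq_card`), so it is not `k`
(`R / k` is infinite), and by Lueroth's theorem (`RatFunc.Luroth.eq_adjoin_generator`, file `Mathlib/FieldTheory/RatFunc/Luroth.lean`) `F = k(f)`.  `P = f.num`, `Q = f.denom`, coprime, `max (deg P) (deg Q) = [R : k(f)] = card Δ` (`RatFunc.finrank_eq_max_natDegree`).  `f` is invariant: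
`P(M_σ(Y)) Q(Y) = Q(M_σ(Y)) P(Y)`; multiply by `(c Y + d)^(card Δ)`: `inv` (in `k[Y]`, which is embedded in `R`). -/
def LuGStmt : Prop :=
  ∀ (k : Type) [Field k] (Δ : Type) [Group Δ] [Finite Δ] (M : Δ → Matrix (Fin 2) (Fin 2) k),
    IsAH M → (∀ σ, Sc (M σ) → σ = 1) → ∃ P Q : k[X], IsPQ M P Q

/-- **BsG.** (200 lines)  Uses MbG.  The base case, `L = k(y)`.

*Proof.*  `L = RatFunc k` (as a field), `y = RatFunc.X`, `f = P(y) / Q(y)` (`Q ≠ 0`: otherwise `P` is a unit and the degree `card Δ ≥ 1` is `0`).  `f` is transcendental over `k` (not constant: `P` and `Q` are coprime and not both constant), so there is `j : RatFunc k → L`, `X ↦ f`, identity on `k`; this is the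
algebra structure.  `[L : j(RatFunc k)] = [k(y) : k(f)] = max (deg f.num) (deg f.denom) = card Δ` (`RatFunc.finrank_eq_max_natDegree`; `f.num`, `f.denom` are `P`, `Q` up to a constant, coprimality).  `act σ` from MbG fixes `f` (`inv` divided by
`(c y + d)^(card Δ) Q(y) Q(M_σ(y))`; `Q(M_σ(y)) = act σ (Q(y)) ≠ 0`), so it is `RatFunc k`-linear.  It is injective and `card Δ = finrank`, so `L / k(X)` is Galois and `act` is bijective (`IsGalois.of_card_aut_eq_finrank`, `AlgEquiv.card_le`).  `RegL k L`: an element of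
`k(y)` which is algebraic over `k` is a constant (see `F/BasF.lean`). -/
def BsGStmt : Prop :=
  ∀ (k : Type) [Field k] (Δ : Type) [Group Δ] [Finite Δ] (M : Δ → Matrix (Fin 2) (Fin 2) k)
    (P Q : k[X]), IsAH M → (∀ σ, Sc (M σ) → σ = 1) → IsPQ M P Q → HHm k Δ M P Q

/-- **CnG.** (20 lines)  Transport along an isomorphism. -/
def CnGStmt : Prop :=
  ∀ (k : Type) [Field k] (Γ Γ' : Type) [Group Γ] [Group Γ'] (f : Γ' ≃* Γ)
    (M : Γ → Matrix (Fin 2) (Fin 2) k) (P Q : k[X]), HHm k Γ M P Q → HHm k Γ' (fun σ => M (f σ)) P Q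

/-- **SpC2.** (150 lines)  Uses HenC, ConC, AppC, FgC (block C), TrB (block B) in this order.  SpcC with the identity on `𝓗`.

*Proof.*  The proof of SpcC (`C/SpcC.lean`); in addition: `x ∈ cl S ∩ 𝓗` satisfies `ι(d)^0 x = eval₂ ι θ (C (C x))`, so `ψ x = eval₂ ι' θ' (C (C x)) = x` by the property of `ψ` in TrB. -/
def SpC2Stmt : Prop :=
  ∀ (k : Type) [Field k] [CharZero k] (𝓗 : Subfield (LaurentSeries k)),
    (∀ c : k, HahnSeries.C c ∈ 𝓗) → HahnSeries.single 1 1 ∈ 𝓗 →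
    (∀ z : LaurentSeries k, (∃ f : 𝓗[X], f ≠ 0 ∧ eval₂ 𝓗.subtype z f = 0) → z ∈ 𝓗) →
    ∀ S : Finset (LaurentSeries k), ∃ ρ : cl S →+* LaurentSeries k, (∀ x, ρ x ∈ 𝓗) ∧
      ∀ x : cl S, (x : LaurentSeries k) ∈ 𝓗 → ρ x = x

/-- **CuC2.** (150 lines)  Uses RegB (block A), GenB, DenB, TrB (block B) in this order.  CurC with the identity on the constants.

*Proof.*  The proof of CurC (`C/CurC.lean`); in addition: `C c ∈ cl S` is `strL k L (C c)`, so `ψ (C c) = eval a (C c) = c` by the property of `ψ` in TrB (`N = 0`, `G = C (C c)`). -/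
def CuC2Stmt : Prop :=
  ∀ (k : Type) [Field k] [CharZero k], PAC k → ∀ S : Finset (LaurentSeries k),
    (∀ s ∈ S, ∃ f : k[X][X], f ≠ 0 ∧ eval₂ (kt k) s f = 0) →
    ∃ φ : cl S →+* k, ∀ (c : k) (h : HahnSeries.C c ∈ cl S), φ ⟨HahnSeries.C c, h⟩ = c

/-- **AlC2.** (80 lines)  Uses SpC2, CuC2.  AllC with the identity on the constants.

*Proof.*  The proof of AllC (`C/AllC.lean`): `ρ : cl S → cl S'` from SpC2 is the identity on the constants in `cl S` (they are in `𝓗`), and `cl S' → k` from CuC2 too. -/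
def AlC2Stmt : Prop :=
  ∀ (k : Type) [Field k] [CharZero k], PAC k → ∀ S : Finset (LaurentSeries k),
    ∃ φ : cl S →+* k, ∀ (c : k) (h : HahnSeries.C c ∈ cl S), φ ⟨HahnSeries.C c, h⟩ = c

/-- **StG.** (60 lines)  Uses SlG, PtG, AlC2, SpG in this order.  One step; as StpF.

*Proof.*  `HHms k H` by SlG (`M` restricted to `H`), `HHm (LaurentSeries k) Γ (C M) (C P) (C Q)` by PtG, `S` by SpG for `K = LaurentSeries k`, `φ : cl S → k` by AlC2 with `φ (C c) = c`; SpG for this `φ` and `M' = M`, `P' = P`, `Q' = Q`. -/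
def StGStmt : Prop :=
  ∀ (k : Type) [Field k] [CharZero k], PAC k → ∀ (Γ : Type) [Group Γ] [Finite Γ]
    (M : Γ → Matrix (Fin 2) (Fin 2) k) (P Q : k[X]) (H : Subgroup Γ) (g : Γ), IsAH M →
    g ^ 2 = 1 → g ≠ 1 → Sc (M g) → H ⊔ Subgroup.zpowers g = ⊤ →
    HHm k H (fun h => M h) P Q → HHm k Γ M P Q

/-- **IcG.** (100 lines)  Uses CnG, StG.  Induction over a list of involutions; as IncF (`F/IncF.lean`). -/
def IcGStmt : Prop :=
  ∀ (k : Type) [Field k] [CharZero k], PAC k → ∀ (Γ : Type) [Group Γ] [Finite Γ]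
    (M : Γ → Matrix (Fin 2) (Fin 2) k) (P Q : k[X]), IsAH M → ∀ H₀ : Subgroup Γ,
    HHm k H₀ (fun h => M h) P Q → ∀ l : List Γ, (∀ g ∈ l, g ^ 2 = 1 ∧ Sc (M g)) →
    HHm k (H₀ ⊔ Subgroup.closure {g | g ∈ l} : Subgroup Γ) (fun h => M h) P Q

/-- **UaG.** (200 lines)  Uses LgD (block D).  The data over the ultraproduct.

*Proof.*  `M' σ i j = π (n ↦ M n σ i j)`; `P' = ∑_{i ≤ d} monomial i (π (n ↦ (P n).coeff i))`, `Q'` in the same way, `d = card Δ`.  `π x ≠ 0` if all `x n ≠ 0` (`x x⁻¹ = 1`).  IsAH: `det`, `mul` coordinatewise (choose the scalars `c n`, `c = π c`).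
Scalars: if all `M n σ` are scalar then `M' σ` is scalar.  If `M' σ = c • 1` then the off-diagonal entries and the difference of the diagonal entries are mapped to `0`, so by LgD there is `n` for which they vanish, so `M n σ` is scalar.  IsPQ: `max (natDegree P') (natDegree Q') = d`: `≤` is clear, and if
`coeff d P' = coeff d Q' = 0` there would be `n` with `coeff d (P n) = coeff d (Q n) = 0`, a contradiction.  Coprime: for every `n` there are `u, v` of degree `≤ 2 d` with `u P + v Q = 1` (from any `u, v` by division of `u` by `Q`, if `Q ≠ 0`; if `Q = 0` then `P` is a constant); assemble them in the same way.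
All polynomial identities: with `Π = ∀ n, ZMod (p n)` let `P̂ ∈ Π[X]` be the polynomial with coefficients `n ↦ (P n).coeff i`; its coordinates (`Pi.evalRingHom`) are the `P n` and its image under `π` is `P'`; an identity in `Π[X]` can be checked on coordinates, and then mapped by `π` (`hom2` commutes with ring
homomorphisms).  The last statement: `x n = φ n (M' σ i j)` has `π x = M' σ i j = π (n ↦ M n σ i j)`, so they agree on a large set (LgD (4) for the difference); intersect finitely many large sets (`σ, i, j`; coefficients `i ≤ d`; for `i > d` both are `0`). -/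
def UaGStmt : Prop :=
  ∀ (p : ℕ → ℕ) [∀ n, Fact (p n).Prime] (K : Type) [Field K] (π : (∀ n, ZMod (p n)) →+* K),
    IsUP p K π → ∀ (Γ : Type) [Group Γ] [Finite Γ] (N H₀ : Subgroup Γ)
    (M : ∀ n, Γ → Matrix (Fin 2) (Fin 2) (ZMod (p n))) (P Q : ∀ n, (ZMod (p n))[X]),
    (∀ n, IsAH (M n)) → (∀ n σ, Sc (M n σ) ↔ σ ∈ N) →
    (∀ n, IsPQ (fun h : H₀ => M n h) (P n) (Q n)) →
    ∃ (M' : Γ → Matrix (Fin 2) (Fin 2) K) (P' Q' : K[X]), IsAH M' ∧ (∀ σ, Sc (M' σ) ↔ σ ∈ N) ∧
      IsPQ (fun h : H₀ => M' h) P' Q' ∧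
      ∀ (S : Finset K) (U : Set ℕ) (φ : ∀ n, n ∈ U → (cl S →+* ZMod (p n))),
        Lg π U → (∀ (a : cl S) (x : ∀ n, ZMod (p n)), (∀ n (h : n ∈ U), x n = φ n h a) →
          π x = a) → (∀ σ i j, M' σ i j ∈ cl S) → (∀ i, P'.coeff i ∈ cl S) →
        (∀ i, Q'.coeff i ∈ cl S) →
        ∃ (n : ℕ) (h : n ∈ U), (∀ σ i j (h' : M' σ i j ∈ cl S), M n σ i j = φ n h ⟨_, h'⟩) ∧
          (∀ i (h' : P'.coeff i ∈ cl S), (P n).coeff i = φ n h ⟨_, h'⟩) ∧
          ∀ i (h' : Q'.coeff i ∈ cl S), (Q n).coeff i = φ n h ⟨_, h'⟩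

/-- **UnG.** (120 lines)  Uses ExD, ChD, PacD, FinD (block D), SpG, LuG, BsG, CnG, IcG, UaG in this order.  The uniform bound.

*Proof.*  Suppose that there is no `n₀`: for every `n` there are a prime `p n > n` and `M n` with the hypotheses such that `HHm (ZMod (p n)) Γ (M n) P Q` is false for all `P, Q`.  By LuG for `Δ = H₀` (`M n` restricted to `H₀` is faithful: `H₀ ⊓ N = ⊥`) there are `P n`, `Q n` with `IsPQ`.  ExD: `K`, `π`; `CharZero K`,
`PAC K`.  UaG: `M'`, `P'`, `Q'`.  BsG: `HHm K H₀ M' P' Q'`.  IcG with a list `l` of all `g ∈ N` with `g² = 1`, and `H₀ ⊔ closure l = ⊤` with CnG: `HHm K Γ M' P' Q'`.  SpG: `S`; FinD: `U`, `φ`; UaG: `n ∈ U` such that `φ n` maps `M'`, `P'`, `Q'` to `M n`, `P n`, `Q n`; so SpG gives `HHm (ZMod (p n)) Γ (M n) (P n) (Q n)`, a contradiction. -/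
def UnGStmt : Prop :=
  ∀ (Γ : Type) [Group Γ] [Finite Γ] (N H₀ : Subgroup Γ), H₀ ⊓ N = ⊥ →
    H₀ ⊔ Subgroup.closure {g | g ^ 2 = 1 ∧ g ∈ N} = ⊤ →
    ∃ n₀ : ℕ, ∀ (p : ℕ) [Fact p.Prime], n₀ < p → ∀ M : Γ → Matrix (Fin 2) (Fin 2) (ZMod p),
      IsAH M → (∀ σ, Sc (M σ) ↔ σ ∈ N) → ∃ P Q : (ZMod p)[X], HHm (ZMod p) Γ M P Q

/-- **ExG.** (200 lines)  Change of the parameter, `X = P(y) / Q(y)`; as ExtF.

*Proof.*  `L`, `act`, `y` from `HHm`.  `y` is transcendental over `k`: otherwise it is a constant (`RegL`) and `X = P(y)/Q(y)` too, a contradiction.  So there is `j : RatFunc k → L`, `X ↦ y`, identity on the constants; this is the new algebra structure; `a σ = act σ` as a ring automorphism (injective; trivial on the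
constants).  `σ ∈ N`: `M_σ` is a scalar, so `act σ y = y` and `act σ` is trivial on `j(RatFunc k)`.  Conversely let `z ∈ L` be fixed by `N`.  Let `K = RatFunc k` (the old structure) and `E = K⟮y⟯`.  The automorphisms of `L / K` which fix `E` are the `act σ` with `act σ y = y`, i.e. `M_σ(y) = y`, i.e. `c y² + (d - a) y - b = 0`, i.e. `M_σ`
scalar (`y` is transcendental), i.e. `σ ∈ N`.  By the Galois correspondence (`IsGalois.fixedField_fixingSubgroup`) `z ∈ E`.  `E ⊆ j(RatFunc k)`: the range of `j` is a subfield which contains `y`, the constants and `X = j(P / Q)` (`Q(y) ≠ 0`). -/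
def ExGStmt : Prop :=
  ∀ (k : Type) [Field k] (Γ : Type) [Group Γ] [Finite Γ] (N : Subgroup Γ)
    (M : Γ → Matrix (Fin 2) (Fin 2) k) (P Q : k[X]), IsAH M → (∀ σ, Sc (M σ) ↔ σ ∈ N) →
    HHm k Γ M P Q →
    ∃ (L : Type) (_ : Field L) (_ : Algebra (RatFunc k) L) (a : Γ →* (L ≃+* L)),
      Function.Injective a ∧
      (∀ (σ : Γ) (c : k), a σ (algebraMap (RatFunc k) L (RatFunc.C c)) =
        algebraMap (RatFunc k) L (RatFunc.C c)) ∧
      ∀ z : L, (∀ σ ∈ N, a σ z = z) ↔ ∃ x, algebraMap (RatFunc k) L x = z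

/-- `PGL₂(k)`. -/
abbrev PGL2 (k : Type) [Field k] : Type :=
  GL (Fin 2) k ⧸ Subgroup.center (GL (Fin 2) k)

/-- **GaG.** (200 lines)  Uses UnG, InvF (block F), ExG in this order.  `(S, A)` has a GA realisation over `𝔽_p(X)` for large `p` for which `A / Inn S`
is isomorphic to a subgroup of `PGL₂(𝔽_p)`.

*Proof.*  `Γ = A` (finite), `N` the subgroup of the inner automorphisms in `A`, `H₀ = D.subgroupOf A`.  `H₀ ⊓ N = ⊥`, and `H₀ ⊔ closure {g | g² = 1, g ∈ N} = ⊤` because the conjugations by `s ∈ S`, `s² = 1`, generate `Inn S` (InvF), and `D ⊔ Inn S = A`.  Let `ρ` be given.  `M σ` is the matrix of a representative in `GL₂` of `ρ(σ⁻¹)`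
(`Quotient.out`).  `ρ((σ τ)⁻¹) = ρ(τ⁻¹) ρ(σ⁻¹)`, so `M(σ τ) = c M(τ) M(σ)` with an element `c` of the center of `GL₂`, which is a scalar matrix (commute with `1 + E₁₂`, `1 + E₂₁`; or Mathlib).  `M σ` is scalar iff `ρ(σ⁻¹) = 1` iff `σ ∈ N`.  UnG: `P`, `Q`, `HHm`; ExG gives the field for `HasGAOver`. -/
def GaGStmt : Prop :=
  ∀ (S : Type) [Group S] [Finite S] [IsSimpleGroup S], (∃ a b : S, a * b ≠ b * a) →
    (∃ g : S, g ≠ 1 ∧ g ^ 2 = 1) → ∀ (A D : Subgroup (MulAut S)),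
    (MulAut.conj (G := S)).range ⊔ D = A → D ⊓ (MulAut.conj (G := S)).range = ⊥ →
    ∃ n₀ : ℕ, ∀ (p : ℕ) [Fact p.Prime], n₀ < p →
      (∃ ρ : A →* PGL2 (ZMod p), ∀ a, ρ a = 1 ↔ (a : MulAut S) ∈ (MulAut.conj (G := S)).range) →
      MP7K.HasGAOver (ZMod p) S A

end MP7U
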